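import Mathlib

/-!
Partitions of zero-sum sequences in an abelian group into zero-sum blocks.
-/

set_option autoImplicit false

namespace Pool.Agent.T9h38.Ab

variable {ι G : Type} [DecidableEq ι] [AddCommGroup G]

/-- `S` is a disjoint union of `r` nonempty sets on which the sum of `g` is zero. -/
inductive ZBlocks (g : ι → G) : Finset ι → ℕ → Prop
  | nil : ZBlocks g ∅ 0
  | cons {T S : Finset ι} {r : ℕ} (hT : T.Nonempty) (hd : Disjoint T S)
      (hz : ∑ i ∈ T, g i = 0) (h : ZBlocks g S r) : ZBlocks g (T ∪ S) (r + 1)

variable {g : ι → G} {S S' : Finset ι} {r r' : ℕ}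

theorem ZBlocks.sum (h : ZBlocks g S r) : ∑ i ∈ S, g i = 0 := by
  induction h with
  | nil => simp
  | cons hT hd hz h ih => rw [Finset.sum_union hd, hz, ih, add_zero]

theorem ZBlocks.one (hS : S.Nonempty) (hz : ∑ i ∈ S, g i = 0) : ZBlocks g S 1 := by
  have h := ZBlocks.cons hS (Finset.disjoint_empty_right S) hz ZBlocks.nil
  rwa [Finset.union_empty] at h

theorem ZBlocks.union (h : ZBlocks g S r) (h' : ZBlocks g S' r') (hd : Disjoint S S') :
    ZBlocks g (S ∪ S') (r + r') := by
  induction h with
  | nil =>
    rw [Finset.empty_union, zero_add]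
    exact h'
  | @cons T S r hT hdT hz h ih =>
    rw [Finset.disjoint_union_left] at hd
    rw [Finset.union_assoc, Nat.add_right_comm]
    refine ZBlocks.cons hT ?_ hz (ih hd.2)
    rw [Finset.disjoint_union_right]
    exact ⟨hdT, hd.1⟩

/-- two blocks can be merged -/
theorem ZBlocks.merge (h : ZBlocks g S (r + 2)) : ZBlocks g S (r + 1) := by
  cases h with
  | @cons T S r hT hd hz h =>
    cases h with
    | @cons T' S' r hT' hd' hz' h =>
      rw [← Finset.union_assoc]
      rw [Finset.disjoint_union_right] at hd
      refine ZBlocks.cons (hT.mono Finset.subset_union_left) ?_ ?_ h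
      · rw [Finset.disjoint_union_left]
        exact ⟨hd.2, hd'⟩
      · rw [Finset.sum_union hd.1, hz, hz', add_zero]

theorem ZBlocks.reduce (h : ZBlocks g S r) {l : ℕ} (hl : 1 ≤ l) (hlr : l ≤ r) :
    ZBlocks g S l := by
  induction r, hlr using Nat.le_induction with
  | base => exact h
  | succ r hr ih =>
    obtain ⟨r, rfl⟩ : ∃ r', r = r' + 1 := ⟨r - 1, by omega⟩
    exact ih h.merge

theorem ZBlocks.singletons (h : ∀ i ∈ S, g i = 0) : ZBlocks g S S.card := by
  induction S using Finset.induction_on with
  | empty => exact ZBlocks.nil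
  | insert i S hi ih =>
    rw [Finset.card_insert_of_notMem hi, Finset.insert_eq]
    refine ZBlocks.cons ⟨i, Finset.mem_singleton_self i⟩ (Finset.disjoint_singleton_left.2 hi) ?_
      (ih fun j hj => h j (Finset.mem_insert_of_mem hj))
    rw [Finset.sum_singleton]
    exact h i (Finset.mem_insert_self i S)

/-- the blocks as the fibres of a function -/
theorem ZBlocks.fibres (h : ZBlocks g S r) :
    ∃ f : ι → ℕ, (∀ i ∈ S, f i < r) ∧ (∀ b < r, ∃ i ∈ S, f i = b) ∧
      ∀ b < r, ∑ i ∈ S with f i = b, g i = 0 := by
  induction h with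
  | nil => exact ⟨fun _ => 0, by simp, by simp, by simp⟩
  | @cons T S k hT hd hz h ih =>
    obtain ⟨f, h1, h2, h3⟩ := ih
    have hTS : ∀ i ∈ S, i ∉ T := fun i hi hT' => (Finset.disjoint_left.1 hd) hT' hi
    refine ⟨fun i => if i ∈ T then k else f i, ?_, ?_, ?_⟩
    · intro i hi
      rcases Finset.mem_union.1 hi with hi | hi
      · simp [hi]
      · simp only [hTS i hi, if_false]
        exact (h1 i hi).trans (Nat.lt_succ_self k)
    · intro b hb
      rcases Nat.lt_succ_iff_lt_or_eq.1 hb with hb | rfl
      · obtain ⟨i, hi, hfi⟩ := h2 b hb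
        exact ⟨i, Finset.mem_union_right _ hi, by simp [hTS i hi, hfi]⟩
      · obtain ⟨i, hi⟩ := hT
        exact ⟨i, Finset.mem_union_left _ hi, by simp [hi]⟩
    · intro b hb
      rcases Nat.lt_succ_iff_lt_or_eq.1 hb with hb | rfl
      · have h4 : ((T ∪ S).filter fun i => (if i ∈ T then k else f i) = b) =
            S.filter fun i => f i = b := by
          ext i
          simp only [Finset.mem_filter, Finset.mem_union]
          constructor
          · rintro ⟨hi | hi, h5⟩
            · simp only [hi, if_true] at h5
              omega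
            · simp only [hTS i hi, if_false] at h5
              exact ⟨hi, h5⟩
          · rintro ⟨hi, h5⟩
            simp [hTS i hi, hi, h5]
        rw [h4]
        exact h3 b hb
      · have h4 : ((T ∪ S).filter fun i => (if i ∈ T then b else f i) = b) = T := by
          ext i
          simp only [Finset.mem_filter, Finset.mem_union]
          constructor
          · rintro ⟨hi | hi, h5⟩
            · exact hi
            · simp only [hTS i hi, if_false] at h5
              have := h1 i hi
              omega
          · intro hi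
            simp [hi]
        rw [h4]
        exact hz

/-- If every sequence of length `D` has a nonempty subsequence with sum zero, then a zero-sum
sequence with `N' > 0` nonzero terms has at least `N' / D` blocks besides its zero terms. -/
theorem ZBlocks.davenport {D : ℕ} (hD : ∀ S : Finset ι, D ≤ S.card → ∃ T ⊆ S, T.Nonempty ∧
    ∑ i ∈ T, g i = 0) (hD1 : 1 ≤ D) : ∀ (n : ℕ) (S : Finset ι), S.card = n → S.Nonempty →
    ∑ i ∈ S, g i = 0 → ∃ r, ZBlocks g S r ∧ 1 ≤ r ∧ S.card ≤ D * r := by
  intro n
  induction n using Nat.strong_induction_on with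
  | _ n ih =>
    intro S hn hne hz
    by_cases hS : S.card ≤ D
    · exact ⟨1, ZBlocks.one hne hz, le_rfl, by omega⟩
    · obtain ⟨U, hUS, hU⟩ := Finset.exists_subset_card_eq (show D ≤ S.card by omega)
      obtain ⟨T, hTU, hT, hTz⟩ := hD U (by omega)
      have hTS : T ⊆ S := hTU.trans hUS
      have hTc : T.card ≤ D := hU ▸ Finset.card_le_card hTU
      have hsum : ∑ i ∈ S \ T, g i = 0 := by
        have h1 := Finset.sum_sdiff (f := g) hTS
        rw [hTz, add_zero, hz] at h1
        exact h1
      have hcard := Finset.card_sdiff_of_subset hTS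
      have hTpos := hT.card_pos
      obtain ⟨r, h1, h2, h3⟩ := ih (S \ T).card (by omega) (S \ T) rfl
        (by rw [← Finset.card_pos]; omega) hsum
      refine ⟨r + 1, ?_, by omega, ?_⟩
      · rw [← Finset.union_sdiff_of_subset hTS]
        exact ZBlocks.cons hT Finset.disjoint_sdiff hTz h1
      · rw [hcard] at h3
        have h4 : D * (r + 1) = D * r + D := by ring
        omega

/-- pigeonhole: among `4` elements of a group with `x + x = 0` and at most three nonzero values -/
theorem exists_pair {B : Finset ι} (f : ι → Fin 3) (hB : 3 < B.card) :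
    ∃ i ∈ B, ∃ j ∈ B, i ≠ j ∧ f i = f j := by
  obtain ⟨i, hi, j, hj, hij, h⟩ := Finset.exists_ne_map_eq_of_card_lt_of_maps_to
    (t := (Finset.univ : Finset (Fin 3))) (by simpa using hB) (f := f) (fun i _ => Finset.mem_univ _)
  exact ⟨i, hi, j, hj, hij, h⟩

end Pool.Agent.T9h38.Ab
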