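import Pool.Agent.T9h38.Ab.Blocks

/-!
Zero-sum sequences in elementary abelian groups of order `2 ^ s`.
-/

set_option autoImplicit false

namespace Pool.Agent.T9h38.Ab

variable {ι : Type} [DecidableEq ι]

theorem two_nsmul_zero {s : ℕ} (v : Fin s → ZMod 2) : v + v = 0 := by
  funext j
  change v j + v j = 0
  generalize v j = z
  revert z
  decide

theorem exists_same {s : ℕ} {g : ι → Fin s → ZMod 2} {S : Finset ι} (hg : ∀ i ∈ S, g i ≠ 0)
    (hS : 2 ^ s ≤ S.card) : ∃ i ∈ S, ∃ j ∈ S, i ≠ j ∧ g i = g j := by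
  classical
  refine Finset.exists_ne_map_eq_of_card_lt_of_maps_to
    (t := (Finset.univ : Finset (Fin s → ZMod 2)).erase 0) ?_ (f := g) fun i hi =>
      Finset.mem_erase.2 ⟨hg i hi, Finset.mem_univ _⟩
  rw [Finset.card_erase_of_mem (Finset.mem_univ _), Finset.card_univ, Fintype.card_fun,
    ZMod.card, Fintype.card_fin]
  have : 0 < 2 ^ s := by positivity
  omega

/-- removing a pair -/
theorem pair_step {s : ℕ} {g : ι → Fin s → ZMod 2} {S : Finset ι} (hz : ∑ i ∈ S, g i = 0) {i j : ι}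
    (hi : i ∈ S) (hj : j ∈ S) (hij : i ≠ j) (h : g i = g j) :
    ∑ l ∈ S \ {i, j}, g l = 0 ∧ (S \ {i, j}).card + 2 = S.card ∧ ∑ l ∈ ({i, j} : Finset ι), g l = 0 ∧
      ({i, j} : Finset ι) ⊆ S := by
  have h1 : ({i, j} : Finset ι) ⊆ S := by
    intro l hl
    rcases Finset.mem_insert.1 hl with rfl | hl
    · exact hi
    · rw [Finset.mem_singleton.1 hl]
      exact hj
  have h2 : ∑ l ∈ ({i, j} : Finset ι), g l = 0 := by
    rw [Finset.sum_pair hij, h, two_nsmul_zero]
  have h3 := Finset.sum_sdiff (f := g) h1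
  have h4 := Finset.card_sdiff_add_card_eq_card h1
  rw [Finset.card_pair hij] at h4
  refine ⟨?_, h4, h2, h1⟩
  rw [h2, add_zero, hz] at h3
  exact h3

/-- The number of blocks in `(ℤ/2)^s`. -/
theorem blocks_two {s : ℕ} (hs : 2 ≤ s) (g : ι → Fin s → ZMod 2) :
    ∀ (n : ℕ) (S : Finset ι), S.card = n → (∀ i ∈ S, g i ≠ 0) → ∑ i ∈ S, g i = 0 →
      ∃ r, ZBlocks g S r ∧ S.card + 3 ≤ 2 * r + 2 ^ s := by
  intro n
  induction n using Nat.strong_induction_on with
  | _ n ih =>
    intro S hn hg hz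
    have h4 : 2 ^ 2 ≤ 2 ^ s := Nat.pow_le_pow_right (by norm_num) hs
    rcases S.eq_empty_or_nonempty with rfl | hne
    · exact ⟨0, ZBlocks.nil, by simp; omega⟩
    · rcases Nat.lt_or_ge S.card (2 ^ s) with hS | hS
      · exact ⟨1, ZBlocks.one hne hz, by omega⟩
      · obtain ⟨i, hi, j, hj, hij, h⟩ := exists_same hg hS
        obtain ⟨h1, h2, h3, h5⟩ := pair_step hz hi hj hij h
        obtain ⟨r, hr, hr2⟩ := ih (S \ {i, j}).card (by omega) (S \ {i, j}) rfl
          (fun l hl => hg l (Finset.mem_sdiff.1 hl).1) h1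
        refine ⟨r + 1, ?_, by omega⟩
        rw [← Finset.union_sdiff_of_subset h5]
        exact ZBlocks.cons ⟨i, Finset.mem_insert_self _ _⟩ Finset.disjoint_sdiff h3 hr

/-- Davenport's constant of `(ℤ/2)^s` is at most `s + 1`. -/
theorem davenport_two {s : ℕ} (g : ι → Fin s → ZMod 2) (S : Finset ι) (hS : s + 1 ≤ S.card) :
    ∃ T ⊆ S, T.Nonempty ∧ ∑ i ∈ T, g i = 0 := by
  classical
  have h1 : ¬ LinearIndependent (ZMod 2) fun i : S => g i := by
    intro h
    have h2 := h.fintype_card_le_finrank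
    rw [Module.finrank_fin_fun, Fintype.card_coe] at h2
    omega
  obtain ⟨f, hf, i, hi⟩ := Fintype.not_linearIndependent_iff.1 h1
  have hf1 : ∀ i, f i ≠ 0 → f i = 1 := by
    intro i
    generalize f i = z
    revert z
    decide
  refine ⟨(Finset.univ.filter fun i : S => f i ≠ 0).map ⟨Subtype.val, Subtype.val_injective⟩,
    ?_, ⟨i, ?_⟩, ?_⟩
  · intro l hl
    obtain ⟨l, -, rfl⟩ := Finset.mem_map.1 hl
    exact l.2
  · exact Finset.mem_map.2 ⟨i, Finset.mem_filter.2 ⟨Finset.mem_univ _, hi⟩, rfl⟩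
  · rw [Finset.sum_map, Finset.sum_filter]
    refine Eq.trans ?_ hf
    refine Finset.sum_congr rfl fun i _ => ?_
    split_ifs with h
    · rw [hf1 i h, one_smul]
      rfl
    · push Not at h
      rw [h, zero_smul]

theorem three_labels' : ∀ u0 u1 v0 v1 w0 w1 : ZMod 2, (u0, u1) ≠ (0, 0) → (v0, v1) ≠ (0, 0) →
    (w0, w1) ≠ (0, 0) → u0 + v0 + w0 = 0 → u1 + v1 + w1 = 0 →
    ∃ i j l : Fin 3, (∀ r, ∃ r', ![i, j, l] r' = r) ∧
      (![(u0, u1), (v0, v1), (w0, w1)] i : ZMod 2 × ZMod 2) = (1, 0) ∧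
      (![(u0, u1), (v0, v1), (w0, w1)] j : ZMod 2 × ZMod 2) = (0, 1) ∧
      (![(u0, u1), (v0, v1), (w0, w1)] l : ZMod 2 × ZMod 2) = (1, 1) := by
  decide

theorem vec_eq (u : Fin 2 → ZMod 2) (a b : ZMod 2) : u = ![a, b] ↔ (u 0, u 1) = (a, b) := by
  constructor
  · rintro rfl
    rfl
  · intro h
    funext i
    rw [Prod.mk.injEq] at h
    fin_cases i
    · exact h.1
    · exact h.2

theorem three_labels (u v w : Fin 2 → ZMod 2) (hu : u ≠ 0) (hv : v ≠ 0) (hw : w ≠ 0)
    (h : u + v + w = 0) :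
    ∃ i j l : Fin 3, (∀ r, ∃ r', ![i, j, l] r' = r) ∧
      (![u, v, w] : Fin 3 → Fin 2 → ZMod 2) i = ![1, 0] ∧
      (![u, v, w] : Fin 3 → Fin 2 → ZMod 2) j = ![0, 1] ∧
      (![u, v, w] : Fin 3 → Fin 2 → ZMod 2) l = ![1, 1] := by
  have h0 : ∀ u : Fin 2 → ZMod 2, u ≠ 0 → (u 0, u 1) ≠ (0, 0) := by
    intro u hu h
    apply hu
    rw [← vec_eq] at h
    rw [h]
    funext i
    fin_cases i <;> rfl
  obtain ⟨i, j, l, h1, h2, h3, h4⟩ := three_labels' (u 0) (u 1) (v 0) (v 1) (w 0) (w 1) (h0 u hu)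
    (h0 v hv) (h0 w hw) (congrFun h 0) (congrFun h 1)
  have h5 : ∀ r : Fin 3, (((![u, v, w] : Fin 3 → Fin 2 → ZMod 2) r 0,
      (![u, v, w] : Fin 3 → Fin 2 → ZMod 2) r 1) : ZMod 2 × ZMod 2) =
      (![(u 0, u 1), (v 0, v 1), (w 0, w 1)] : Fin 3 → ZMod 2 × ZMod 2) r := by
    intro r
    fin_cases r <;> rfl
  refine ⟨i, j, l, h1, ?_, ?_, ?_⟩
  · rw [vec_eq, h5, h2]
  · rw [vec_eq, h5, h3]
  · rw [vec_eq, h5, h4]

/-- **Pairs and one triple.** -/
theorem pairs_triple (g : ι → Fin 2 → ZMod 2) :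
    ∀ (n : ℕ) (S : Finset ι), S.card = n → (∀ i ∈ S, g i ≠ 0) → ∑ i ∈ S, g i = 0 → n % 2 = 1 →
      ∃ (q : ℕ) (e f : Fin q → ι) (T : Fin 3 → ι), S.card = 2 * q + 3 ∧
        (∀ i ∈ S, ∃ o, Sum.elim (Sum.elim e f) T o = i) ∧ (∀ j, g (e j) = g (f j)) ∧
        (∀ j, g (e j) ≠ 0) ∧ g (T 0) = ![1, 0] ∧ g (T 1) = ![0, 1] ∧ g (T 2) = ![1, 1] := by
  intro n
  induction n using Nat.strong_induction_on with
  | _ n ih =>
    intro S hn hg hz hodd
    rcases Nat.lt_or_ge S.card 4 with hS | hS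
    · have h3 : S.card = 1 ∨ S.card = 3 := by omega
      rcases h3 with h1 | h3
      · exfalso
        obtain ⟨i, rfl⟩ := Finset.card_eq_one.1 h1
        rw [Finset.sum_singleton] at hz
        exact hg i (Finset.mem_singleton_self i) hz
      · obtain ⟨x, y, z, hxy, hxz, hyz, rfl⟩ := Finset.card_eq_three.1 h3
        have hsum : g x + g y + g z = 0 := by
          rw [Finset.sum_insert (by simp [hxy, hxz]), Finset.sum_pair hyz] at hz
          rw [add_assoc]
          exact hz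
        obtain ⟨i, j, l, hcov, hi, hj, hl⟩ := three_labels (g x) (g y) (g z)
          (hg x (by simp)) (hg y (by simp)) (hg z (by simp)) hsum
        have hgc : ∀ r : Fin 3, g ((![x, y, z] : Fin 3 → ι) r) =
            (![g x, g y, g z] : Fin 3 → Fin 2 → ZMod 2) r := by
          intro r
          fin_cases r <;> rfl
        refine ⟨0, Fin.elim0, Fin.elim0, fun r => (![x, y, z] : Fin 3 → ι) (![i, j, l] r), by omega,
          ?_, fun j => j.elim0, fun j => j.elim0, ?_, ?_, ?_⟩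
        · intro w hw
          have h4 : ∃ r : Fin 3, (![x, y, z] : Fin 3 → ι) r = w := by
            simp only [Finset.mem_insert, Finset.mem_singleton] at hw
            rcases hw with rfl | rfl | rfl
            · exact ⟨0, rfl⟩
            · exact ⟨1, rfl⟩
            · exact ⟨2, rfl⟩
          obtain ⟨r, hr⟩ := h4
          obtain ⟨r', hr'⟩ := hcov r
          refine ⟨Sum.inr r', ?_⟩
          rw [Sum.elim_inr, hr', hr]
        · change g ((![x, y, z] : Fin 3 → ι) i) = _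
          rw [hgc, hi]
        · change g ((![x, y, z] : Fin 3 → ι) j) = _
          rw [hgc, hj]
        · change g ((![x, y, z] : Fin 3 → ι) l) = _
          rw [hgc, hl]
    · obtain ⟨i, hi, j, hj, hij, h⟩ := exists_same hg (by simpa using hS)
      obtain ⟨h1, h2, h3, h5⟩ := pair_step hz hi hj hij h
      obtain ⟨q, e, f, T, hc, hcov, hef, hne, hT0, hT1, hT2⟩ := ih (S \ {i, j}).card (by omega)
        (S \ {i, j}) rfl (fun l hl => hg l (Finset.mem_sdiff.1 hl).1) h1 (by omega)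
      refine ⟨q + 1, Fin.cons i e, Fin.cons j f, T, by omega, ?_, ?_, ?_, hT0, hT1, hT2⟩
      · intro l hl
        by_cases hl1 : l = i
        · exact ⟨Sum.inl (Sum.inl 0), by rw [hl1]; rfl⟩
        by_cases hl2 : l = j
        · exact ⟨Sum.inl (Sum.inr 0), by rw [hl2]; rfl⟩
        obtain ⟨o, ho⟩ := hcov l (by simp [hl, hl1, hl2])
        rcases o with (o | o) | o
        · exact ⟨Sum.inl (Sum.inl o.succ), ho⟩
        · exact ⟨Sum.inl (Sum.inr o.succ), ho⟩
        · exact ⟨Sum.inr o, ho⟩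
      · intro l
        refine Fin.cases ?_ (fun l => ?_) l
        · exact h
        · exact hef l
      · intro l
        refine Fin.cases ?_ (fun l => ?_) l
        · exact hg i hi
        · exact hne l

/-- a map onto a finite set from a set of the same cardinality is injective -/
theorem inj_of_card {α : Type} [Fintype α] (φ : α → ι) (S : Finset ι)
    (h : ∀ i ∈ S, ∃ o, φ o = i) (hc : Fintype.card α ≤ S.card) : Function.Injective φ := by
  classical
  have h1 : S ⊆ Finset.univ.image φ := fun i hi => by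
    obtain ⟨o, ho⟩ := h i hi
    exact Finset.mem_image.2 ⟨o, Finset.mem_univ _, ho⟩
  have h2 := Finset.card_le_card h1
  have h3 : (Finset.univ.image φ).card ≤ Fintype.card α := Finset.card_image_le
  have h4 : (Finset.univ.image φ).card = (Finset.univ : Finset α).card := by
    rw [Finset.card_univ]
    omega
  have h5 := Finset.card_image_iff.1 h4
  intro a b hab
  exact h5 (Finset.mem_coe.2 (Finset.mem_univ a)) (Finset.mem_coe.2 (Finset.mem_univ b)) hab

end Pool.Agent.T9h38.Ab
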