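import Pool.Agent.T9h38.Ab.Gens

/-!
The linear forms over the field generated by quotients of pairs of them.
-/

set_option autoImplicit false
set_option linter.unusedSectionVars false

open Pool.Agent.W602.GT Pool.Agent.T9h38.Cyc

namespace Pool.Agent.T9h38.Ab

variable {k L : Type} [Field k] [IsAlgClosed k] [Field L] [Algebra k L]

theorem genPos_comp {n N N' : ℕ} {c : Fin N → Fin (n + 1) → k} (hc : GenPos c)
    {ψ : Fin N' → Fin N} (hψ : Function.Injective ψ) : GenPos fun i => c (ψ i) := by
  classical
  intro s hs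
  have h1 := hc (s.image ψ) (Finset.card_image_le.trans hs)
  exact h1.comp (fun i : s => (⟨ψ i, Finset.mem_image_of_mem ψ i.2⟩ : (s.image ψ : Finset (Fin N))))
    fun i j hij => Subtype.ext (hψ (congrArg Subtype.val hij))

variable {p N : ℕ} {c : Fin N → Fin (p + 2 + 1) → k} {x : Fin (p + 2) → L}

/-- `p` quotients of pairs and the quotients of a triple of linear forms generate the field of
rational functions of `p + 2` variables -/
theorem x_mem (hx : IsTranscendenceBasis k x) (hc : GenPos c) (e f : Fin p → Fin N)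
    (T : Fin 3 → Fin N) (hinj : Function.Injective (Sum.elim (Sum.elim e f) T))
    (F : IntermediateField k L) (ht : ∀ j, lin x (c (e j)) / lin x (c (f j)) ∈ F)
    (hT : ∀ i, lin x (c (T i)) / lin x (c (T 2)) ∈ F) (j : Fin (p + 2)) : x j ∈ F := by
  classical
  have hcard : Fintype.card (Fin (p + 2 + (p + 1))) = Fintype.card ((Fin p ⊕ Fin p) ⊕ Fin 3) := by
    simp
    omega
  let σ : Fin (p + 2 + (p + 1)) ≃ ((Fin p ⊕ Fin p) ⊕ Fin 3) := Fintype.equivOfCardEq hcard
  let ψ : Fin (p + 2 + (p + 1)) → Fin N := fun i => Sum.elim (Sum.elim e f) T (σ i)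
  have hψ : Function.Injective ψ := hinj.comp σ.injective
  have hc' := genPos_comp hc hψ
  have hlf : ∀ i, lin x (c i) ≠ 0 := fun i => lin_ne hx.1 (hc.ne_zero i)
  refine ratios_gen (l := p) hx hc' rfl
    (fun i => Sum.elim (fun q : Fin p ⊕ Fin p => (Sum.elim id id q).succ) (fun _ => 0) (σ i))
    (fun b => Fin.cases (σ.symm (Sum.inr 2)) (fun j => σ.symm (Sum.inl (Sum.inr j))) b)
    (fun b => ?_) F (fun i => ?_) j
  · refine Fin.cases ?_ (fun j => ?_) b
    · simp
    · simp
  · obtain ⟨q, rfl⟩ := σ.symm.surjective i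
    simp only [ψ, Equiv.apply_symm_apply]
    rcases q with (q | q) | q
    · simp only [Sum.elim_inl, id, Fin.cases_succ, Equiv.apply_symm_apply, Sum.elim_inr]
      exact ht q
    · simp only [Sum.elim_inl, Sum.elim_inr, id, Fin.cases_succ, Equiv.apply_symm_apply]
      rw [div_self (hlf _)]
      exact one_mem F
    · simp only [Sum.elim_inr, Fin.cases_zero, Equiv.apply_symm_apply]
      exact hT q

/-- the quotients of the pairs -/
def tt (c : Fin N → Fin (p + 2 + 1) → k) (x : Fin (p + 2) → L) (e f : Fin p → Fin N) :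
    Fin p → L := fun j => lin x (c (e j)) / lin x (c (f j))

/-- the field generated by the quotients of the pairs -/
def F0 (c : Fin N → Fin (p + 2 + 1) → k) (x : Fin (p + 2) → L) (e f : Fin p → Fin N) :
    IntermediateField k L := IntermediateField.adjoin k (Set.range (tt c x e f))

theorem tt_mem (e f : Fin p → Fin N) (j : Fin p) : tt c x e f j ∈ F0 c x e f :=
  IntermediateField.subset_adjoin k _ ⟨j, rfl⟩

theorem tt_indep (hx : IsTranscendenceBasis k x) (hc : GenPos c) (e f : Fin p → Fin N)
    (T : Fin 3 → Fin N) (hinj : Function.Injective (Sum.elim (Sum.elim e f) T)) :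
    AlgebraicIndependent k (tt c x e f) := by
  have hlf : ∀ i, lin x (c i) ≠ 0 := fun i => lin_ne hx.1 (hc.ne_zero i)
  let z : Fin p ⊕ Fin 2 → L := Sum.elim (tt c x e f)
    ![lin x (c (T 0)) / lin x (c (T 2)), lin x (c (T 1)) / lin x (c (T 2))]
  have h1 : IsTranscendenceBasis k z := by
    refine basis_of_alg (n := p + 2) (by simp) (trdeg_of_basis hx) z (alg_of_basis hx _ ?_)
    refine x_mem hx hc e f T hinj _ (fun j => ?_) (fun i => ?_)
    · exact IntermediateField.subset_adjoin k _ ⟨Sum.inl j, rfl⟩
    · fin_cases i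
      · exact IntermediateField.subset_adjoin k _ ⟨Sum.inr 0, rfl⟩
      · exact IntermediateField.subset_adjoin k _ ⟨Sum.inr 1, rfl⟩
      · simp only [Fin.reduceFinMk]
        rw [div_self (hlf _)]
        exact one_mem _
  exact h1.1.comp Sum.inl Sum.inl_injective

/-- the determinant of the linear system -/
theorem det_ne {t : Fin p → L} (ht : AlgebraicIndependent k t) (A : Matrix (Fin p) (Fin p) k) :
    (Matrix.of fun i j => (if i = j then t i else 0) - algebraMap k L (A i j)).det ≠ 0 := by
  classical
  let Q : Matrix (Fin p) (Fin p) (MvPolynomial (Fin p) k) := Matrix.of fun i j =>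
    (if i = j then MvPolynomial.X i else 0) - MvPolynomial.C (A i j)
  have hQ : MvPolynomial.aeval t Q.det =
      (Matrix.of fun i j => (if i = j then t i else 0) - algebraMap k L (A i j)).det := by
    have h1 : (Matrix.of fun i j => (if i = j then t i else 0) - algebraMap k L (A i j)) =
        (MvPolynomial.aeval t : MvPolynomial (Fin p) k →ₐ[k] L).toRingHom.mapMatrix Q := by
      ext i j
      simp only [Q, Matrix.of_apply, RingHom.mapMatrix_apply, Matrix.map_apply,
        AlgHom.toRingHom_eq_coe, RingHom.coe_coe, map_sub, MvPolynomial.aeval_C]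
      congr 1
      split_ifs with h
      · rw [MvPolynomial.aeval_X]
      · rw [map_zero]
    rw [h1, ← RingHom.map_det]
    rfl
  intro h0
  rw [← hQ] at h0
  have h1 : Q.det = 0 := (map_eq_zero_iff _ ht).1 h0
  let φ : MvPolynomial (Fin p) k →ₐ[k] Polynomial k := MvPolynomial.aeval fun _ => Polynomial.X
  have h2 : φ Q.det = A.charpoly := by
    have h3 : Matrix.charmatrix A = φ.toRingHom.mapMatrix Q := by
      ext1 i j
      simp only [Q, φ, Matrix.of_apply, RingHom.mapMatrix_apply, Matrix.map_apply,
        AlgHom.toRingHom_eq_coe, RingHom.coe_coe, map_sub, MvPolynomial.aeval_C,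
        Matrix.charmatrix_apply, Matrix.diagonal_apply, Polynomial.algebraMap_eq]
      congr 1
      split_ifs with h
      · rw [MvPolynomial.aeval_X]
      · rw [map_zero]
    rw [Matrix.charpoly, h3, ← RingHom.map_det]
    rfl
  rw [h1, map_zero] at h2
  exact (Matrix.charpoly_monic A).ne_zero h2.symm

theorem lin_sum {n : ℕ} (x : Fin n → L) {ι : Type} (S : Finset ι) (b : ι → k)
    (d : ι → Fin (n + 1) → k) :
    lin x (∑ i ∈ S, b i • d i) = ∑ i ∈ S, algebraMap k L (b i) * lin x (d i) := by
  classical
  induction S using Finset.induction_on with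
  | empty => simp [lin_zero]
  | insert i s hi ih =>
    rw [Finset.sum_insert hi, Finset.sum_insert hi, lin_add, Cyc.lin_smul, ih, Algebra.smul_def]

/-- **All linear forms are combinations of three of them.** -/
theorem lin_comb (hx : IsTranscendenceBasis k x) (hc : GenPos c) (e f : Fin p → Fin N)
    (T : Fin 3 → Fin N) (hinj : Function.Injective (Sum.elim (Sum.elim e f) T))
    (d : Fin (p + 2 + 1) → k) : ∃ α : Fin 3 → L, (∀ r, α r ∈ F0 c x e f) ∧
      lin x d = ∑ r, α r * lin x (c (T r)) := by
  classical
  have hlf : ∀ i, lin x (c i) ≠ 0 := fun i => lin_ne hx.1 (hc.ne_zero i)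
  have htt := tt_indep hx hc e f T hinj
  -- the basis of the linear forms
  have hfT : Function.Injective (Sum.elim f T) := by
    intro i j hij
    have h1 := @hinj (Sum.elim (fun q => Sum.inl (Sum.inr q)) Sum.inr i)
      (Sum.elim (fun q => Sum.inl (Sum.inr q)) Sum.inr j) (by
        rcases i with i | i <;> rcases j with j | j <;> exact hij)
    rcases i with i | i <;> rcases j with j | j
    · exact congrArg Sum.inl (by simpa using h1)
    · simp at h1
    · simp at h1
    · exact congrArg Sum.inr (by simpa using h1)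
  have hspan : ∀ d : Fin (p + 2 + 1) → k, ∃ b : Fin p ⊕ Fin 3 → k,
      d = ∑ i, b i • c (Sum.elim f T i) := by
    intro d
    have h1 := hc (Finset.univ.image (Sum.elim f T)) (by
      rw [Finset.card_image_of_injective _ hfT]
      simp)
    have h2 : LinearIndependent k fun i => c (Sum.elim f T i) :=
      h1.comp (fun i => (⟨Sum.elim f T i, Finset.mem_image_of_mem _ (Finset.mem_univ i)⟩ :
        (Finset.univ.image (Sum.elim f T) : Finset (Fin N)))) fun i j hij =>
          hfT (congrArg Subtype.val hij)
    have h3 : Submodule.span k (Set.range fun i => c (Sum.elim f T i)) = ⊤ := by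
      apply h2.span_eq_top_of_card_eq_finrank'
      simp
    have h4 : d ∈ Submodule.span k (Set.range fun i => c (Sum.elim f T i)) := by
      rw [h3]
      trivial
    obtain ⟨b, hb⟩ := (Submodule.mem_span_range_iff_exists_fun k).1 h4
    exact ⟨b, hb.symm⟩
  choose b hb using hspan
  let A : Matrix (Fin p) (Fin p) k := Matrix.of fun i j => b (c (e i)) (Sum.inl j)
  let Q : Fin p → Fin 3 → k := fun i r => b (c (e i)) (Sum.inr r)
  let M : Matrix (Fin p) (Fin p) L :=
    Matrix.of fun i j => (if i = j then tt c x e f i else 0) - algebraMap k L (A i j)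
  have hM : M.det ≠ 0 := det_ne htt A
  have hMF : ∀ i j, M i j ∈ F0 c x e f := by
    intro i j
    refine sub_mem ?_ (IntermediateField.algebraMap_mem _ _)
    split_ifs
    · exact tt_mem e f i
    · exact zero_mem _
  have hsys : ∀ i, ∑ j, M i j * lin x (c (f j)) = ∑ r, algebraMap k L (Q i r) * lin x (c (T r)) := by
    intro i
    have h1 : lin x (c (e i)) = tt c x e f i * lin x (c (f i)) := by
      rw [tt, div_mul_cancel₀ _ (hlf _)]
    have h2 : lin x (c (e i)) = ∑ j, algebraMap k L (A i j) * lin x (c (f j)) +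
        ∑ r, algebraMap k L (Q i r) * lin x (c (T r)) := by
      conv_lhs => rw [hb (c (e i))]
      rw [lin_sum, Fintype.sum_sum_type]
      rfl
    have h3 : ∑ j, M i j * lin x (c (f j)) =
        tt c x e f i * lin x (c (f i)) - ∑ j, algebraMap k L (A i j) * lin x (c (f j)) := by
      simp only [M, Matrix.of_apply, sub_mul, Finset.sum_sub_distrib, ite_mul, zero_mul,
        Finset.sum_ite_eq, Finset.mem_univ, if_true]
    rw [h3, ← h1, h2]
    ring
  have hMu : IsUnit M.det := isUnit_iff_ne_zero.2 hM
  let s : Fin 3 → Fin p → L := fun r => M⁻¹.mulVec fun i => algebraMap k L (Q i r)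
  have hMs : ∀ r, M.mulVec (s r) = fun i => algebraMap k L (Q i r) := by
    intro r
    change M.mulVec (M⁻¹.mulVec _) = _
    rw [Matrix.mulVec_mulVec, Matrix.mul_nonsing_inv _ hMu, Matrix.one_mulVec]
  have hsF : ∀ r i, s r i ∈ F0 c x e f := by
    intro r i
    refine cramer_mem (F0 c x e f) M hMF hM (s r) (fun i => algebraMap k L (Q i r))
      (fun i => IntermediateField.algebraMap_mem _ _) (fun i => ?_) i
    exact congrFun (hMs r) i
  have hlin : ∀ i, lin x (c (f i)) = ∑ r, s r i * lin x (c (T r)) := by
    have h1 : M.mulVec (fun i => lin x (c (f i)) - ∑ r, s r i * lin x (c (T r))) = 0 := by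
      funext i
      change ∑ j, M i j * (lin x (c (f j)) - ∑ r, s r j * lin x (c (T r))) = 0
      have h2 : ∑ j, M i j * ∑ r, s r j * lin x (c (T r)) =
          ∑ r, algebraMap k L (Q i r) * lin x (c (T r)) := by
        simp only [Finset.mul_sum]
        rw [Finset.sum_comm]
        refine Finset.sum_congr rfl fun r _ => ?_
        have h3 : ∑ j, M i j * s r j = algebraMap k L (Q i r) := congrFun (hMs r) i
        rw [← h3, Finset.sum_mul]
        exact Finset.sum_congr rfl fun j _ => by ring
      simp only [mul_sub, Finset.sum_sub_distrib]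
      rw [hsys, h2, sub_self]
    have h2 := Matrix.eq_zero_of_mulVec_eq_zero hM h1
    intro i
    exact sub_eq_zero.1 (congrFun h2 i)
  refine ⟨fun r => algebraMap k L (b d (Sum.inr r)) +
    ∑ i, algebraMap k L (b d (Sum.inl i)) * s r i, fun r => ?_, ?_⟩
  · exact add_mem (IntermediateField.algebraMap_mem _ _) (sum_mem fun i _ =>
      mul_mem (IntermediateField.algebraMap_mem _ _) (hsF r i))
  · conv_lhs => rw [hb d]
    rw [lin_sum, Fintype.sum_sum_type]
    simp only [Sum.elim_inl, Sum.elim_inr]
    have h1 : ∑ i, algebraMap k L (b d (Sum.inl i)) * lin x (c (f i)) =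
        ∑ r, (∑ i, algebraMap k L (b d (Sum.inl i)) * s r i) * lin x (c (T r)) := by
      simp only [Finset.sum_mul]
      rw [Finset.sum_comm]
      refine Finset.sum_congr rfl fun i _ => ?_
      rw [hlin i, Finset.mul_sum]
      exact Finset.sum_congr rfl fun r _ => by ring
    rw [h1, add_comm, ← Finset.sum_add_distrib]
    exact Finset.sum_congr rfl fun r _ => by ring

/-- three linear forms are linearly independent over the field of the quotients -/
theorem coef_zero (hx : IsTranscendenceBasis k x) (hc : GenPos c) (e f : Fin p → Fin N)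
    (T : Fin 3 → Fin N) (hinj : Function.Injective (Sum.elim (Sum.elim e f) T)) (α : Fin 3 → L)
    (hα : ∀ r, α r ∈ F0 c x e f) (h : ∑ r, α r * lin x (c (T r)) = 0) : α 0 = 0 := by
  by_contra h0
  have hlf : ∀ i, lin x (c i) ≠ 0 := fun i => lin_ne hx.1 (hc.ne_zero i)
  let z : Fin p ⊕ Unit → L := Sum.elim (tt c x e f) fun _ => lin x (c (T 1)) / lin x (c (T 2))
  have hle : F0 c x e f ≤ IntermediateField.adjoin k (Set.range z) := by
    refine IntermediateField.adjoin.mono k _ _ ?_
    rintro _ ⟨j, rfl⟩
    exact ⟨Sum.inl j, rfl⟩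
  have h1 : ∀ j, x j ∈ IntermediateField.adjoin k (Set.range z) := by
    refine x_mem hx hc e f T hinj _ (fun j => hle (tt_mem e f j)) (fun i => ?_)
    have h1T : lin x (c (T 1)) / lin x (c (T 2)) ∈ IntermediateField.adjoin k (Set.range z) :=
      IntermediateField.subset_adjoin k _ ⟨Sum.inr (), rfl⟩
    fin_cases i
    · simp only [Fin.zero_eta]
      have h2 : lin x (c (T 0)) / lin x (c (T 2)) =
          -(α 1 * (lin x (c (T 1)) / lin x (c (T 2))) + α 2) / α 0 := by
        rw [Fin.sum_univ_three] at h
        have h3 := hlf (T 2)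
        rw [div_eq_div_iff h3 h0]
        field_simp
        linear_combination h
      rw [h2]
      exact div_mem (neg_mem (add_mem (mul_mem (hle (hα 1)) h1T) (hle (hα 2)))) (hle (hα 0))
    · exact h1T
    · simp only [Fin.reduceFinMk]
      rw [div_self (hlf _)]
      exact one_mem _
  have h2 := le_card_of_mem hx z h1
  simp at h2

theorem coef_zero' (hx : IsTranscendenceBasis k x) (hc : GenPos c) (e f : Fin p → Fin N)
    (T : Fin 3 → Fin N) (hinj : Function.Injective (Sum.elim (Sum.elim e f) T)) (α : Fin 3 → L)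
    (hα : ∀ r, α r ∈ F0 c x e f) (h : ∑ r, α r * lin x (c (T r)) = 0) (r : Fin 3) : α r = 0 := by
  have h1 := coef_zero hx hc e f (fun i => T (Equiv.swap 0 r i)) (by
    have h2 : (Sum.elim (Sum.elim e f) fun i => T (Equiv.swap 0 r i)) =
        (Sum.elim (Sum.elim e f) T) ∘ (Sum.map id (Equiv.swap 0 r)) := by
      funext i
      rcases i with i | i <;> rfl
    rw [h2]
    exact hinj.comp (Function.Injective.sumMap Function.injective_id (Equiv.swap 0 r).injective))
    (fun i => α (Equiv.swap 0 r i)) (fun i => hα _) (by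
      rw [← h]
      exact Equiv.sum_comp (Equiv.swap 0 r) fun i => α i * lin x (c (T i)))
  simpa using h1

end Pool.Agent.T9h38.Ab
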