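import Pool.Agent.T9h38.Ab.Conic

/-!
A double cover of a bidouble cover of projective space, branched along `2 n + 1` hyperplanes, is
rational.
-/

set_option autoImplicit false
set_option linter.unusedSectionVars false

open Pool.Agent.W602.GT Pool.Agent.T9h38.Cyc

namespace Pool.Agent.T9h38.Ab

variable {k L : Type} [Field k] [IsAlgClosed k] [Field L] [Algebra k L]

variable {p N : ℕ} {c : Fin N → Fin (p + 2 + 1) → k} {x : Fin (p + 2) → L}

theorem inj_sub {e f : Fin p → Fin N} {T : Fin 5 → Fin N}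
    (hinj : Function.Injective (Sum.elim (Sum.elim e f) T)) (τ : Fin 3 → Fin 5)
    (hτ : Function.Injective τ) :
    Function.Injective (Sum.elim (Sum.elim e f) fun i => T (τ i)) := by
  have h2 : (Sum.elim (Sum.elim e f) fun i => T (τ i)) =
      (Sum.elim (Sum.elim e f) T) ∘ (Sum.map id τ) := by
    funext i
    rcases i with i | i <;> rfl
  rw [h2]
  exact hinj.comp (Function.Injective.sumMap Function.injective_id hτ)

/-- the product of powers of the linear forms modulo squares -/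
theorem prod_form (hx : IsTranscendenceBasis k x) (hc : GenPos c) (e f : Fin p → Fin N)
    (T : Fin 5 → Fin N) (hinj : Function.Injective (Sum.elim (Sum.elim e f) T)) (a : Fin N → ℕ)
    (hpair : ∀ j, a (e j) % 2 = a (f j) % 2) (h0 : a (T 0) % 2 = 1) (h1 : a (T 1) % 2 = 1)
    (h2 : a (T 2) % 2 = 1) (h3 : a (T 3) % 2 = 0) (h4 : a (T 4) % 2 = 1)
    (hout : ∀ i, i ∉ Set.range (Sum.elim (Sum.elim e f) T) → a i % 2 = 0) :
    ∃ q τ : L, q ≠ 0 ∧ τ ≠ 0 ∧ τ ∈ F0 c x e f ∧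
      (∀ E : IntermediateField k L, (∀ i, x i ∈ E) → q ∈ E) ∧
      ∏ i, lin x (c i) ^ a i = q ^ 2 * ((lin x (c (T 2)) / lin x (c (T 4))) * τ *
        (lin x (c (T 0)) / lin x (c (T 1)))) := by
  classical
  have hlf : ∀ i, lin x (c i) ≠ 0 := fun i => lin_ne hx.1 (hc.ne_zero i)
  let q0 : L := ∏ i, lin x (c i) ^ (a i / 2)
  let q1 : L := ∏ j, lin x (c (f j)) ^ (a (e j) % 2)
  let τ : L := ∏ j, tt c x e f j ^ (a (e j) % 2)
  have htt : ∀ j, tt c x e f j ≠ 0 := fun j => div_ne_zero (hlf _) (hlf _)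
  refine ⟨q0 * q1 * lin x (c (T 1)) * lin x (c (T 4)), τ, ?_, ?_, ?_, ?_, ?_⟩
  · exact mul_ne_zero (mul_ne_zero (mul_ne_zero
      (Finset.prod_ne_zero_iff.2 fun i _ => pow_ne_zero _ (hlf i))
      (Finset.prod_ne_zero_iff.2 fun i _ => pow_ne_zero _ (hlf _))) (hlf _)) (hlf _)
  · exact Finset.prod_ne_zero_iff.2 fun i _ => pow_ne_zero _ (htt i)
  · exact prod_mem fun j _ => pow_mem (tt_mem e f j) _
  · intro E hE
    exact mul_mem (mul_mem (mul_mem (prod_mem fun i _ => pow_mem (lin_mem E hE _) _)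
      (prod_mem fun i _ => pow_mem (lin_mem E hE _) _)) (lin_mem E hE _)) (lin_mem E hE _)
  · have hs : ∏ i, lin x (c i) ^ a i = q0 ^ 2 * ∏ i, lin x (c i) ^ (a i % 2) := by
      rw [← Finset.prod_pow, ← Finset.prod_mul_distrib]
      refine Finset.prod_congr rfl fun i _ => ?_
      rw [← pow_mul, ← pow_add]
      congr 1
      omega
    have hr : ∏ i, lin x (c i) ^ (a i % 2) = ∏ i : (Fin p ⊕ Fin p) ⊕ Fin 5,
        lin x (c (Sum.elim (Sum.elim e f) T i)) ^ (a (Sum.elim (Sum.elim e f) T i) % 2) := by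
      symm
      refine Fintype.prod_of_injective _ hinj _ _ (fun i hi => ?_) (fun i => rfl)
      rw [hout i hi, pow_zero]
    have ht : (∏ j, lin x (c (e j)) ^ (a (e j) % 2)) * (∏ j, lin x (c (f j)) ^ (a (f j) % 2)) =
        τ * q1 ^ 2 := by
      rw [← Finset.prod_pow, ← Finset.prod_mul_distrib, ← Finset.prod_mul_distrib]
      refine Finset.prod_congr rfl fun j _ => ?_
      rw [← hpair j, tt, div_pow, ← pow_mul, mul_comm (a (e j) % 2) 2, pow_mul]
      have h5 := pow_ne_zero (a (e j) % 2) (hlf (f j))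
      field_simp
      rw [← pow_mul, ← pow_mul, mul_comm (a (e j) % 2) 2]
    rw [hs, hr, Fintype.prod_sum_type, Fintype.prod_sum_type]
    simp only [Sum.elim_inl, Sum.elim_inr]
    rw [ht, Fin.prod_univ_five, h0, h1, h2, h3, h4]
    have h5 := hlf (T 1)
    have h6 := hlf (T 4)
    field_simp

/-- **The conic bundle.** -/
theorem conic_gens [IsAlgClosed L] [CharZero k] (hx : IsTranscendenceBasis k x) (hc : GenPos c)
    (e f : Fin p → Fin N) (T : Fin 5 → Fin N)
    (hinj : Function.Injective (Sum.elim (Sum.elim e f) T)) (a1 a2 : Fin N → ℕ)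
    (hpair1 : ∀ j, a1 (e j) % 2 = a1 (f j) % 2) (hpair2 : ∀ j, a2 (e j) % 2 = a2 (f j) % 2)
    (h10 : a1 (T 0) % 2 = 1) (h11 : a1 (T 1) % 2 = 1) (h12 : a1 (T 2) % 2 = 1)
    (h13 : a1 (T 3) % 2 = 0) (h14 : a1 (T 4) % 2 = 1)
    (h20 : a2 (T 0) % 2 = 1) (h21 : a2 (T 1) % 2 = 1) (h22 : a2 (T 2) % 2 = 0)
    (h23 : a2 (T 3) % 2 = 1) (h24 : a2 (T 4) % 2 = 1)
    (hout1 : ∀ i, i ∉ Set.range (Sum.elim (Sum.elim e f) T) → a1 i % 2 = 0)
    (hout2 : ∀ i, i ∉ Set.range (Sum.elim (Sum.elim e f) T) → a2 i % 2 = 0)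
    (y1 y2 : L) (hy1 : y1 ^ 2 = ∏ i, lin x (c i) ^ a1 i) (hy2 : y2 ^ 2 = ∏ i, lin x (c i) ^ a2 i) :
    ∃ g : Fin p ⊕ Fin 2 → L, (∀ j, x j ∈ IntermediateField.adjoin k (Set.range g)) ∧
      y1 ∈ IntermediateField.adjoin k (Set.range g) ∧
      y2 ∈ IntermediateField.adjoin k (Set.range g) := by
  classical
  haveI : CharZero L := charZero_of_injective_algebraMap (algebraMap k L).injective
  have hlf : ∀ i, lin x (c i) ≠ 0 := fun i => lin_ne hx.1 (hc.ne_zero i)
  -- the products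
  obtain ⟨q1, τ1, hq1, hτ1, hτ1F, hq1E, hp1⟩ := prod_form hx hc e f T hinj a1 hpair1 h10 h11 h12 h13
    h14 hout1
  have hinj' : Function.Injective (Sum.elim (Sum.elim e f) fun i => T (Equiv.swap 2 3 i)) := by
    have h2 : (Sum.elim (Sum.elim e f) fun i => T (Equiv.swap 2 3 i)) =
        (Sum.elim (Sum.elim e f) T) ∘ (Sum.map id (Equiv.swap 2 3)) := by
      funext i
      rcases i with i | i <;> rfl
    rw [h2]
    exact hinj.comp (Function.Injective.sumMap Function.injective_id (Equiv.swap 2 3).injective)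
  have hs0 : Equiv.swap (2 : Fin 5) 3 0 = 0 := by decide
  have hs1 : Equiv.swap (2 : Fin 5) 3 1 = 1 := by decide
  have hs2 : Equiv.swap (2 : Fin 5) 3 2 = 3 := by decide
  have hs3 : Equiv.swap (2 : Fin 5) 3 3 = 2 := by decide
  have hs4 : Equiv.swap (2 : Fin 5) 3 4 = 4 := by decide
  obtain ⟨q2, τ2, hq2, hτ2, hτ2F, hq2E, hp2⟩ := prod_form hx hc e f
    (fun i => T (Equiv.swap 2 3 i)) hinj' a2 hpair2 (by rw [hs0]; exact h20)
    (by rw [hs1]; exact h21) (by rw [hs2]; exact h23) (by rw [hs3]; exact h22)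
    (by rw [hs4]; exact h24) (fun i hi => hout2 i fun ⟨j, hj⟩ => hi
      ⟨Sum.map id (Equiv.swap 2 3) j, by
        rw [← hj]
        rcases j with j | j
        · rfl
        · simp [Sum.map_inr]⟩)
  rw [hs0, hs1, hs2, hs4] at hp2
  -- the forms
  set l0 := lin x (c (T 0)) with hl0
  set l1 := lin x (c (T 1)) with hl1
  set la := lin x (c (T 2)) with hla
  set lb := lin x (c (T 3)) with hlb
  set lc := lin x (c (T 4)) with hlc
  have hl0n : l0 ≠ 0 := hlf _
  have hl1n : l1 ≠ 0 := hlf _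
  have hlan : la ≠ 0 := hlf _
  have hlbn : lb ≠ 0 := hlf _
  have hlcn : lc ≠ 0 := hlf _
  have hTabc : Function.Injective (![2, 3, 4] : Fin 3 → Fin 5) := by decide
  have hT01c : Function.Injective (![0, 1, 4] : Fin 3 → Fin 5) := by decide
  have hT01a : Function.Injective (![0, 1, 2] : Fin 3 → Fin 5) := by decide
  obtain ⟨u, huF, hu⟩ := lin_comb hx hc e f _ (inj_sub hinj _ hTabc) (c (T 0))
  obtain ⟨v, hvF, hv⟩ := lin_comb hx hc e f _ (inj_sub hinj _ hTabc) (c (T 1))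
  rw [Fin.sum_univ_three] at hu hv
  simp only [Matrix.cons_val_zero, Matrix.cons_val_one, Matrix.cons_val] at hu hv
  rw [← hl0, ← hla, ← hlb, ← hlc] at hu
  rw [← hl1, ← hla, ← hlb, ← hlc] at hv
  -- independence
  have hind : ∀ α β γ : L, α ∈ F0 c x e f → β ∈ F0 c x e f → γ ∈ F0 c x e f →
      α * l0 + β * l1 + γ * lc = 0 → α = 0 ∧ β = 0 ∧ γ = 0 := by
    intro α β γ hα hβ hγ h
    have h1 := coef_zero' hx hc e f _ (inj_sub hinj _ hT01c) ![α, β, γ] (by
      intro r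
      fin_cases r <;> assumption) (by
      rw [Fin.sum_univ_three]
      exact h)
    exact ⟨h1 0, h1 1, h1 2⟩
  have hinda : ∀ α β γ : L, α ∈ F0 c x e f → β ∈ F0 c x e f → γ ∈ F0 c x e f →
      α * l0 + β * l1 + γ * la = 0 → α = 0 ∧ β = 0 ∧ γ = 0 := by
    intro α β γ hα hβ hγ h
    have h1 := coef_zero' hx hc e f _ (inj_sub hinj _ hT01a) ![α, β, γ] (by
      intro r
      fin_cases r <;> assumption) (by
      rw [Fin.sum_univ_three]
      exact h)
    exact ⟨h1 0, h1 1, h1 2⟩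
  have hD : u 0 * v 1 - u 1 * v 0 ≠ 0 := by
    intro hD
    have h1 := hind (v 0) (-(u 0)) (u 0 * v 2 - u 2 * v 0) (hvF 0) (neg_mem (huF 0))
      (sub_mem (mul_mem (huF 0) (hvF 2)) (mul_mem (huF 2) (hvF 0))) (by
        rw [hu, hv]
        linear_combination (-lb) * hD)
    have h2 := hind (v 1) (-(u 1)) (u 1 * v 2 - u 2 * v 1) (hvF 1) (neg_mem (huF 1))
      (sub_mem (mul_mem (huF 1) (hvF 2)) (mul_mem (huF 2) (hvF 1))) (by
        rw [hu, hv]
        linear_combination la * hD)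
    have h3 : u 0 = 0 := neg_eq_zero.1 h1.2.1
    have h4 : u 1 = 0 := neg_eq_zero.1 h2.2.1
    have h5 := hind 1 0 (-(u 2)) (one_mem _) (zero_mem _) (neg_mem (huF 2)) (by
      rw [hu, h3, h4]
      ring)
    exact one_ne_zero h5.1
  set t : L := l0 / l1 with ht
  have htn : t ≠ 0 := div_ne_zero hl0n hl1n
  have htF : t ∉ F0 c x e f := by
    intro h
    have h1 := hind 1 (-t) 0 (one_mem _) (neg_mem h) (zero_mem _) (by
      rw [ht]
      field_simp
      ring)
    exact one_ne_zero h1.1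
  have hgen : ∀ r : Fin 3, u r - t * v r = 0 → u r = 0 ∧ v r = 0 := by
    intro r h
    have h1 : v r = 0 := by
      by_contra hne
      apply htF
      have h2 : t = u r / v r := by
        field_simp
        linear_combination -h
      rw [h2]
      exact div_mem (huF r) (hvF r)
    rw [h1, mul_zero, sub_zero] at h
    exact ⟨h, h1⟩
  set α : L := u 0 - t * v 0 with hα
  set β : L := u 1 - t * v 1 with hβ
  set γ : L := u 2 - t * v 2 with hγ
  have hαn : α ≠ 0 := by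
    intro h
    obtain ⟨h1, h2⟩ := hgen 0 h
    exact hD (by rw [h1, h2]; ring)
  have hβn : β ≠ 0 := by
    intro h
    obtain ⟨h1, h2⟩ := hgen 1 h
    exact hD (by rw [h1, h2]; ring)
  have hγn : γ ≠ 0 := by
    intro h
    obtain ⟨h1, h2⟩ := hgen 2 h
    have h3 := hinda (v 1) (-(u 1)) (-(u 0 * v 1 - u 1 * v 0)) (hvF 1) (neg_mem (huF 1))
      (neg_mem (sub_mem (mul_mem (huF 0) (hvF 1)) (mul_mem (huF 1) (hvF 0)))) (by
        rw [hu, hv, h1, h2]
        ring)
    exact hD (neg_eq_zero.1 h3.2.2)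
  have hrel : α * (la / lc) + β * (lb / lc) + γ = 0 := by
    have h1 : α * la + β * lb + γ * lc = 0 := by
      have h2 : l0 = t * l1 := by rw [ht, div_mul_cancel₀ _ hl1n]
      rw [hu, hv] at h2
      rw [hα, hβ, hγ]
      linear_combination h2
    field_simp
    linear_combination h1
  -- the square roots
  obtain ⟨w, hw⟩ := IsAlgClosed.exists_pow_nat_eq (-(α * β * τ1 * τ2)) (n := 2) (by norm_num)
  have hwn : w ≠ 0 := by
    intro h
    rw [h] at hw
    have : α * β * τ1 * τ2 ≠ 0 := mul_ne_zero (mul_ne_zero (mul_ne_zero hαn hβn) hτ1) hτ2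
    apply this
    linear_combination hw
  set Y1 : L := y1 / q1 with hY1
  set Y2 : L := y2 / q2 with hY2
  have hY1s : Y1 ^ 2 = (la / lc) * τ1 * t := by
    rw [hY1, div_pow, hy1, hp1, mul_div_cancel_left₀ _ (pow_ne_zero _ hq1)]
  have hY2s : Y2 ^ 2 = (lb / lc) * τ2 * t := by
    rw [hY2, div_pow, hy2, hp2, mul_div_cancel_left₀ _ (pow_ne_zero _ hq2)]
  set s : L := w / α with hs
  have hsn : s ≠ 0 := div_ne_zero hwn hαn
  set z : L := α * τ2 * Y1 - w * Y2 with hz
  set z' : L := α * τ2 * Y1 + w * Y2 with hz'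
  have hzz : z * z' = -(α * γ * τ1 * τ2 ^ 2 * t) := by
    have h1 : z * z' = α ^ 2 * τ2 ^ 2 * Y1 ^ 2 - w ^ 2 * Y2 ^ 2 := by
      rw [hz, hz']
      ring
    rw [h1, hY1s, hY2s, hw]
    linear_combination (α * τ1 * τ2 ^ 2 * t) * hrel
  have hzn : z ≠ 0 := by
    intro h
    rw [h, zero_mul] at hzz
    have : α * γ * τ1 * τ2 ^ 2 * t ≠ 0 :=
      mul_ne_zero (mul_ne_zero (mul_ne_zero (mul_ne_zero hαn hγn) hτ1) (pow_ne_zero _ hτ2)) htn
    apply this
    linear_combination hzz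
  refine ⟨Sum.elim (tt c x e f) ![s, z], ?_⟩
  set E := IntermediateField.adjoin k (Set.range (Sum.elim (tt c x e f) ![s, z])) with hE
  have hF0E : F0 c x e f ≤ E := by
    refine IntermediateField.adjoin.mono k _ _ ?_
    rintro _ ⟨j, rfl⟩
    exact ⟨Sum.inl j, rfl⟩
  have hsE : s ∈ E := IntermediateField.subset_adjoin k _ ⟨Sum.inr 0, rfl⟩
  have hzE : z ∈ E := IntermediateField.subset_adjoin k _ ⟨Sum.inr 1, rfl⟩
  have huE := fun r => hF0E (huF r)
  have hvE := fun r => hF0E (hvF r)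
  have hτ1E := hF0E hτ1F
  have hτ2E := hF0E hτ2F
  have hsα : s ^ 2 * α + β * τ1 * τ2 = 0 := by
    rw [hs, div_pow, hw]
    field_simp
    ring
  have htE : t ∈ E := by
    have h1 : t * (s ^ 2 * v 0 + τ1 * τ2 * v 1) = s ^ 2 * u 0 + τ1 * τ2 * u 1 := by
      rw [hα, hβ] at hsα
      linear_combination -hsα
    have h2 : s ^ 2 * v 0 + τ1 * τ2 * v 1 ≠ 0 := by
      intro h
      rw [h, mul_zero] at h1
      have h3 : s ^ 2 * (u 0 * v 1 - u 1 * v 0) = 0 := by
        linear_combination (-(v 1)) * h1 - (u 1) * h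
      exact (mul_ne_zero (pow_ne_zero 2 hsn) hD) h3
    have h3 : t = (s ^ 2 * u 0 + τ1 * τ2 * u 1) / (s ^ 2 * v 0 + τ1 * τ2 * v 1) := by
      rw [← h1, mul_div_cancel_right₀ _ h2]
    rw [h3]
    exact div_mem (add_mem (mul_mem (pow_mem hsE 2) (huE 0)) (mul_mem (mul_mem hτ1E hτ2E) (huE 1)))
      (add_mem (mul_mem (pow_mem hsE 2) (hvE 0)) (mul_mem (mul_mem hτ1E hτ2E) (hvE 1)))
  have hαE : α ∈ E := sub_mem (huE 0) (mul_mem htE (hvE 0))
  have hγE : γ ∈ E := sub_mem (huE 2) (mul_mem htE (hvE 2))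
  have hwE : w ∈ E := by
    have h1 : w = s * α := by rw [hs, div_mul_cancel₀ _ hαn]
    rw [h1]
    exact mul_mem hsE hαE
  have hz'E : z' ∈ E := by
    have h1 : z' = -(α * γ * τ1 * τ2 ^ 2 * t) / z := by
      rw [← hzz, mul_div_cancel_left₀ _ hzn]
    rw [h1]
    exact div_mem (neg_mem (mul_mem (mul_mem (mul_mem (mul_mem hαE hγE) hτ1E) (pow_mem hτ2E 2))
      htE)) hzE
  have h2E : (2 : L) ∈ E := by
    have h1 : (2 : L) = 1 + 1 := by norm_num
    rw [h1]
    exact add_mem (one_mem E) (one_mem E)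
  have hY1E : Y1 ∈ E := by
    have h1 : Y1 = (z + z') / (2 * (α * τ2)) := by
      rw [hz, hz']
      field_simp
      ring
    rw [h1]
    exact div_mem (add_mem hzE hz'E) (mul_mem h2E (mul_mem hαE hτ2E))
  have hY2E : Y2 ∈ E := by
    have h1 : Y2 = (z' - z) / (2 * w) := by
      rw [hz, hz']
      field_simp
      ring
    rw [h1]
    exact div_mem (sub_mem hz'E hzE) (mul_mem h2E hwE)
  have hxE : ∀ j, x j ∈ E := by
    refine x_mem hx hc e f _ (inj_sub hinj _ hTabc) E (fun j => hF0E (tt_mem e f j)) (fun i => ?_)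
    fin_cases i
    · change la / lc ∈ E
      have h1 : la / lc = Y1 ^ 2 / (τ1 * t) := by
        rw [hY1s]
        field_simp
      rw [h1]
      exact div_mem (pow_mem hY1E 2) (mul_mem hτ1E htE)
    · change lb / lc ∈ E
      have h1 : lb / lc = Y2 ^ 2 / (τ2 * t) := by
        rw [hY2s]
        field_simp
      rw [h1]
      exact div_mem (pow_mem hY2E 2) (mul_mem hτ2E htE)
    · change lc / lc ∈ E
      rw [div_self hlcn]
      exact one_mem E
  refine ⟨hxE, ?_, ?_⟩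
  · have h1 : y1 = Y1 * q1 := by rw [hY1, div_mul_cancel₀ _ hq1]
    rw [h1]
    exact mul_mem hY1E (hq1E E hxE)
  · have h1 : y2 = Y2 * q2 := by rw [hY2, div_mul_cancel₀ _ hq2]
    rw [h1]
    exact mul_mem hY2E (hq2E E hxE)

end Pool.Agent.T9h38.Ab
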