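import Pool.Agent.T9h38.Ab.Gens
import Pool.Agent.T9h38.Ab.Blocks
import Pool.Agent.T9h38.Cyc.Main

/-!
Abelian covers of projective space branched along hyperplanes in general position, whose exponents
can be divided into zero-sum blocks, are rational.
-/

set_option autoImplicit false
set_option linter.unusedSectionVars false

open Pool.Agent.W602.GT Pool.Agent.T9h38.Cyc

namespace Pool.Agent.T9h38.Ab

variable {k L : Type} [Field k] [IsAlgClosed k] [Field L] [Algebra k L]

/-- `L` is the function field of (a component of) the abelian cover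
`y_j ^ m = ∏ l_i ^ (a_ji)`, `j = 1, …, s`, of the projective space with the coordinates
`1, x_1, …, x_n`; `c i` are the coefficients of the linear form `l_i`. -/
structure AbCover {n N s : ℕ} (m : ℕ) (c : Fin N → Fin (n + 1) → k) (a : Fin s → Fin N → ℕ)
    (x : Fin n → L) (y : Fin s → L) : Prop where
  indep : AlgebraicIndependent k x
  root : ∀ j, y j ^ m = ∏ i, lin x (c i) ^ a j i
  gen : IntermediateField.adjoin k (Set.range y ∪ Set.range x) = ⊤

/-- the labels of the hyperplanes: the exponents modulo `m` -/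
def label {N s : ℕ} (m : ℕ) (a : Fin s → Fin N → ℕ) (i : Fin N) : Fin s → ZMod m :=
  fun j => (a j i : ZMod m)

/-- the hyperplanes along which the cover is branched -/
def branch {N s : ℕ} (m : ℕ) (a : Fin s → Fin N → ℕ) : Finset (Fin N) :=
  Finset.univ.filter fun i => ∃ j, ¬ m ∣ a j i

section

variable {n N m s : ℕ} {c : Fin N → Fin (n + 1) → k} {a : Fin s → Fin N → ℕ} {x : Fin n → L}
  {y : Fin s → L}

theorem AbCover.y_ne (h : AbCover m c a x y) (hc : GenPos c) (hm : 0 < m) (j : Fin s) :
    y j ≠ 0 := by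
  intro h0
  have h1 := h.root j
  rw [h0, zero_pow hm.ne'] at h1
  exact (Finset.prod_ne_zero_iff.2 fun i _ => pow_ne_zero _ (lin_ne h.indep (hc.ne_zero i))) h1.symm

theorem AbCover.alg (h : AbCover m c a x y) (hm : 0 < m) (F : IntermediateField k L)
    (hF : ∀ i, x i ∈ F) : Algebra.IsAlgebraic F L := by
  have h1 : ∀ j, IsIntegral F (y j) := by
    intro j
    refine IsIntegral.of_pow hm ?_
    rw [h.root j]
    have h2 : ∏ i, lin x (c i) ^ a j i ∈ F := prod_mem fun i _ => pow_mem (lin_mem F hF _) _
    have h3 : ∏ i, lin x (c i) ^ a j i = algebraMap F L ⟨_, h2⟩ := rfl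
    rw [h3]
    exact isIntegral_algebraMap
  have h2 : (⊤ : IntermediateField k L) ≤
      (IntermediateField.adjoin F (Set.range y)).restrictScalars k := by
    rw [← h.gen, IntermediateField.adjoin_le_iff]
    rintro _ (⟨j, rfl⟩ | ⟨i, rfl⟩)
    · exact IntermediateField.subset_adjoin F _ ⟨j, rfl⟩
    · exact IntermediateField.algebraMap_mem (IntermediateField.adjoin F (Set.range y))
        (⟨x i, hF i⟩ : F)
  have h3 : IntermediateField.adjoin F (Set.range y) = ⊤ := by
    rw [eq_top_iff]
    intro z _
    exact h2 (show z ∈ (⊤ : IntermediateField k L) from trivial)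
  have h4 : Algebra.IsAlgebraic F (IntermediateField.adjoin F (Set.range y)) := by
    refine IntermediateField.isAlgebraic_adjoin ?_
    rintro _ ⟨j, rfl⟩
    exact h1 j
  rw [h3] at h4
  exact (IntermediateField.topEquiv (F := F) (E := L)).isAlgebraic

theorem AbCover.basis (h : AbCover m c a x y) (hm : 0 < m) : IsTranscendenceBasis k x := by
  have h1 := h.alg hm (IntermediateField.adjoin k (Set.range x))
    fun i => IntermediateField.subset_adjoin k _ ⟨i, rfl⟩
  have h2 := alg_adjoin h1
  exact h.indep.isTranscendenceBasis_iff_isAlgebraic.2 h2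

theorem AbCover.trdeg (h : AbCover m c a x y) (hm : 0 < m) : Algebra.trdeg k L = n :=
  trdeg_of_basis (h.basis hm)

theorem AbCover.ess (h : AbCover m c a x y) : Algebra.EssFiniteType k L := by
  classical
  rw [← IntermediateField.fg_top_iff, ← h.gen]
  exact ⟨Finset.univ.image y ∪ Finset.univ.image x, by simp⟩

/-- **Rationality.** If the hyperplanes can be divided into `N - n` classes on which the sums of the
exponents are divisible by `m`, then the field is generated by `n` elements. -/
theorem AbCover.gens {l : ℕ} (h : AbCover m c a x y) (hc : GenPos c) (hm : 0 < m)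
    (hN : N = n + (l + 1)) (f : Fin N → Fin (l + 1)) (hf : Function.Surjective f)
    (hz : ∀ j b, m ∣ ∑ i ∈ Finset.univ.filter fun i => f i = b, a j i) :
    ∃ t : Fin n → L, IntermediateField.adjoin k (Set.range t) = ⊤ := by
  classical
  choose β hβ using hf
  have hβinj : Function.Injective β := fun b b' hb => by rw [← hβ b, hb, hβ]
  have hlf : ∀ i, lin x (c i) ≠ 0 := fun i => lin_ne h.indep (hc.ne_zero i)
  let T : Finset (Fin N) := Finset.univ \ Finset.univ.image β
  have hTmem : ∀ i, i ∈ T ↔ ∀ b, β b ≠ i := by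
    intro i
    simp [T]
  have hTcard : T.card = n := by
    rw [Finset.card_sdiff_of_subset (Finset.subset_univ _), Finset.card_image_of_injective _ hβinj]
    simp
    omega
  let u : T → L := fun i => lin x (c i) / lin x (c (β (f i)))
  have hu : ∀ F : IntermediateField k L, (∀ i, u i ∈ F) →
      ∀ i, lin x (c i) / lin x (c (β (f i))) ∈ F := by
    intro F hF i
    by_cases hi : i ∈ T
    · exact hF ⟨i, hi⟩
    · rw [hTmem] at hi
      push Not at hi
      obtain ⟨b, rfl⟩ := hi
      rw [hβ, div_self (hlf _)]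
      exact one_mem F
  -- the roots
  choose K hK using hz
  let q : Fin s → L := fun j => ∏ b, lin x (c (β b)) ^ K j b
  have hq : ∀ j, q j ≠ 0 := fun j =>
    Finset.prod_ne_zero_iff.2 fun b _ => pow_ne_zero _ (hlf _)
  have hyne := h.y_ne hc hm
  have hroot : ∀ j, (y j / q j) ^ m = ∏ i, u i ^ a j i := by
    intro j
    have h1 : ∏ i, lin x (c i) ^ a j i =
        (∏ i, (lin x (c i) / lin x (c (β (f i)))) ^ a j i) *
          ∏ i, lin x (c (β (f i))) ^ a j i := by
      rw [← Finset.prod_mul_distrib]
      refine Finset.prod_congr rfl fun i _ => ?_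
      rw [← mul_pow, div_mul_cancel₀ _ (hlf _)]
    have h2 : ∏ i, lin x (c (β (f i))) ^ a j i = q j ^ m := by
      change _ = (∏ b, lin x (c (β b)) ^ K j b) ^ m
      rw [← Finset.prod_fiberwise Finset.univ f, ← Finset.prod_pow]
      refine Finset.prod_congr rfl fun b _ => ?_
      rw [← pow_mul, mul_comm (K j b) m, ← hK j b, ← Finset.prod_pow_eq_pow_sum]
      refine Finset.prod_congr rfl fun i hi => ?_
      rw [(Finset.mem_filter.1 hi).2]
    have h3 : ∏ i, (lin x (c i) / lin x (c (β (f i)))) ^ a j i = ∏ i : T, u i ^ a j i := by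
      have h4 : ∏ i ∈ T, (lin x (c i) / lin x (c (β (f i)))) ^ a j i =
          ∏ i, (lin x (c i) / lin x (c (β (f i)))) ^ a j i := by
        refine Finset.prod_subset (Finset.subset_univ T) fun i _ hi => ?_
        rw [hTmem] at hi
        push Not at hi
        obtain ⟨b, rfl⟩ := hi
        rw [hβ, div_self (hlf _), one_pow]
      rw [← h4, ← Finset.prod_coe_sort]
    rw [div_pow, h.root j, h1, h2, mul_div_cancel_right₀ _ (pow_ne_zero _ (hq j)), h3]
  have hune : ∀ i, u i ≠ 0 := fun i => div_ne_zero (hlf _) (hlf _)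
  obtain ⟨t, ht⟩ := toric (k := k) (fun i => Units.mk0 (u i) (hune i))
    (fun j => Units.mk0 (y j / q j) (div_ne_zero (hyne j) (hq j))) m hm
    (fun j (i : T) => a j i) (fun j => by
      ext
      rw [Units.coe_prod]
      simp only [Units.val_pow_eq_pow_val, Units.val_mk0]
      exact hroot j) (by
      rw [eq_top_iff, ← h.gen, IntermediateField.adjoin_le_iff]
      set E := IntermediateField.adjoin k ((Set.range fun j : Fin s =>
        ((Units.mk0 (y j / q j) (div_ne_zero (hyne j) (hq j)) : Lˣ) : L)) ∪
        Set.range fun i : T => ((Units.mk0 (u i) (hune i) : Lˣ) : L)) with hE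
      have huE : ∀ i, u i ∈ E := fun i =>
        IntermediateField.subset_adjoin k _ (Or.inr ⟨i, rfl⟩)
      have hxE : ∀ j, x j ∈ E := ratios_gen (h.basis hm) hc hN f β hβ E (hu E huE)
      rintro _ (⟨j, rfl⟩ | ⟨i, rfl⟩)
      · have h1 : y j / q j * q j ∈ E := by
          refine mul_mem (IntermediateField.subset_adjoin k _ (Or.inl ⟨j, rfl⟩)) ?_
          exact prod_mem fun b _ => pow_mem (lin_mem _ hxE _) _
        rw [div_mul_cancel₀ _ (hq j)] at h1
        exact h1
      · exact hxE i)
  have hcard : Fintype.card T = n := by simpa using hTcard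
  refine ⟨fun i => t (Fin.cast hcard.symm i), ?_⟩
  rw [← ht]
  congr 1
  ext g
  constructor
  · rintro ⟨i, rfl⟩
    exact ⟨_, rfl⟩
  · rintro ⟨i, rfl⟩
    exact ⟨Fin.cast hcard i, rfl⟩

/-- at most `n + 1` hyperplanes -/
theorem AbCover.few (h : AbCover m c a x y) (hc : GenPos c) (hm : 1 ≤ m)
    (hz : ∀ j, m ∣ ∑ i, a j i) (hN : N ≤ n + 1) :
    ∃ t : Fin n → L, IntermediateField.adjoin k (Set.range t) = ⊤ := by
  classical
  have h1 := hc Finset.univ (by simpa using hN)
  have hinj : Function.Injective c := by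
    intro i j hij
    have h2 := h1.injective (a₁ := (⟨i, Finset.mem_univ i⟩ : (Finset.univ : Finset (Fin N))))
      (a₂ := ⟨j, Finset.mem_univ j⟩) hij
    exact congrArg Subtype.val h2
  have h2 : LinearIndepOn k id (Set.range c) := by
    have h3 : (Set.range fun i : (Finset.univ : Finset (Fin N)) => c i) = Set.range c := by
      ext d
      simp
    rw [← h3]
    exact h1.linearIndepOn_id
  -- a basis which contains the vectors
  obtain ⟨v, hv, hvc⟩ : ∃ v : Fin (n + 1) → Fin (n + 1) → k, LinearIndependent k v ∧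
      Set.range c ⊆ Set.range v := by
    rcases Set.eq_empty_or_nonempty (Set.range c) with h3 | ⟨u, hu⟩
    · rw [h3]
      exact ⟨fun i => Pi.single i 1, Pi.linearIndependent_single_one _ k, Set.empty_subset _⟩
    · obtain ⟨v, hv, -, hvs⟩ := exists_basis h2 hu
      exact ⟨v, hv, hvs⟩
  choose φ hφ using fun i => hvc ⟨i, rfl⟩
  have hφinj : Function.Injective φ := fun i j hij => hinj (by rw [← hφ i, ← hφ j, hij])
  let a' : Fin s → Fin (n + 1) → ℕ := fun r j => ∑ i ∈ Finset.univ.filter fun i => φ i = j, a r i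
  have hv' : GenPos v := fun s _ => hv.comp _ Subtype.val_injective
  have hcov : AbCover m v a' x y := by
    refine ⟨h.indep, fun r => ?_, h.gen⟩
    rw [h.root r, ← Finset.prod_fiberwise Finset.univ φ]
    refine Finset.prod_congr rfl fun j _ => ?_
    rw [← Finset.prod_pow_eq_pow_sum]
    refine Finset.prod_congr rfl fun i hi => ?_
    rw [← hφ i, (Finset.mem_filter.1 hi).2]
  have hsub : ∀ b b' : Fin (0 + 1), b = b' := fun b b' => Fin.ext (by omega)
  refine hcov.gens hv' (by omega) (l := 0) rfl (fun _ => 0) (fun b => ⟨0, hsub _ _⟩) fun r b => ?_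
  · have h3 : (Finset.univ.filter fun _ : Fin (n + 1) => (0 : Fin (0 + 1)) = b) = Finset.univ := by
      rw [Finset.filter_true_of_mem]
      intro i _
      exact hsub _ _
    rw [h3]
    change m ∣ ∑ j, ∑ i ∈ Finset.univ.filter fun i => φ i = j, a r i
    rw [Finset.sum_fiberwise]
    exact hz r

theorem dvd_iff_label {S : Finset (Fin N)} :
    ∑ i ∈ S, label m a i = 0 ↔ ∀ j, m ∣ ∑ i ∈ S, a j i := by
  constructor
  · intro h j
    have h1 := congrFun h j
    rw [Finset.sum_apply] at h1
    change ∑ i ∈ S, (a j i : ZMod m) = 0 at h1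
    rw [← Nat.cast_sum, ZMod.natCast_eq_zero_iff] at h1
    exact h1
  · intro h
    funext j
    rw [Finset.sum_apply]
    change ∑ i ∈ S, (a j i : ZMod m) = 0
    rw [← Nat.cast_sum, ZMod.natCast_eq_zero_iff]
    exact h j

theorem label_eq_zero_iff (i : Fin N) : label m a i = 0 ↔ i ∉ branch m a := by
  rw [branch, Finset.mem_filter]
  push Not
  constructor
  · intro h _ j
    have h1 := congrFun h j
    change (a j i : ZMod m) = 0 at h1
    rwa [ZMod.natCast_eq_zero_iff] at h1
  · intro h
    funext j
    change (a j i : ZMod m) = 0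
    rw [ZMod.natCast_eq_zero_iff]
    exact h (Finset.mem_univ i) j

/-- **Zero-sum blocks of the branch hyperplanes give rationality.** -/
theorem AbCover.rational_of_blocks [CharZero k] (h : AbCover m c a x y) (hc : GenPos c)
    (hm : 1 ≤ m) (hz : ∀ j, m ∣ ∑ i, a j i) {r : ℕ} (hb : ZBlocks (label m a) (branch m a) r)
    (hr : (branch m a).card ≤ n + r) : IsRational k L n := by
  classical
  rcases Nat.lt_or_ge n N with hN | hN
  · obtain ⟨l, hl⟩ : ∃ l, N = n + (l + 1) := ⟨N - n - 1, by omega⟩
    have h1 : ZBlocks (label m a) Finset.univ (r + (Finset.univ \ branch m a).card) := by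
      have h2 := hb.union (ZBlocks.singletons (S := Finset.univ \ branch m a) fun i hi =>
        (label_eq_zero_iff i).2 (Finset.mem_sdiff.1 hi).2) Finset.disjoint_sdiff
      rwa [Finset.union_sdiff_of_subset (Finset.subset_univ _)] at h2
    have h2 : (Finset.univ \ branch m a).card = N - (branch m a).card := by
      rw [Finset.card_sdiff_of_subset (Finset.subset_univ _), Finset.card_univ, Fintype.card_fin]
    have h2' : (branch m a).card ≤ N := by
      have := Finset.card_le_univ (branch m a)
      rwa [Fintype.card_fin] at this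
    have h3 := h1.reduce (l := l + 1) (by omega) (by omega)
    obtain ⟨f, hf1, hf2, hf3⟩ := h3.fibres
    obtain ⟨t, ht⟩ := h.gens hc (by omega) hl (fun i => ⟨f i, hf1 i (Finset.mem_univ i)⟩)
      (fun b => by
        obtain ⟨i, -, hi⟩ := hf2 b b.2
        exact ⟨i, Fin.ext hi⟩) (fun j b => by
        have h1 := dvd_iff_label.1 (hf3 b b.2) j
        have h2 : (Finset.univ.filter fun i => (⟨f i, hf1 i (Finset.mem_univ i)⟩ : Fin (l + 1)) = b) =
            Finset.univ.filter fun i => f i = b := Finset.filter_congr fun i _ => by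
          rw [Fin.ext_iff]
        rw [h2]
        exact h1)
    exact rational_of_gens (h.trdeg (by omega)) t ht
  · obtain ⟨t, ht⟩ := h.few hc hm hz (by omega)
    exact rational_of_gens (h.trdeg (by omega)) t ht

theorem sum_branch (hz : ∀ j, m ∣ ∑ i, a j i) : ∑ i ∈ branch m a, label m a i = 0 := by
  have h1 : ∑ i, label m a i = 0 := dvd_iff_label.2 hz
  rw [← h1]
  refine Finset.sum_subset (Finset.subset_univ _) fun i _ hi => ?_
  exact (label_eq_zero_iff i).2 hi

/-- zero-sum classes give rationality -/
theorem AbCover.rational_of_classes [CharZero k] (h : AbCover m c a x y) (hc : GenPos c)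
    (hm : 1 ≤ m) (hN : n < N) (f : Fin N → Fin (N - n)) (hf : Function.Surjective f)
    (hf0 : ∀ j b, m ∣ ∑ i ∈ Finset.univ.filter fun i => f i = b, a j i) : IsRational k L n := by
  obtain ⟨l, hl⟩ : ∃ l, N = n + (l + 1) := ⟨N - n - 1, by omega⟩
  have h1 : N - n = l + 1 := by omega
  obtain ⟨t, ht⟩ := h.gens hc (by omega) hl (fun i => Fin.cast h1 (f i)) (fun b => by
    obtain ⟨i, hi⟩ := hf (Fin.cast h1.symm b)
    refine ⟨i, ?_⟩
    change Fin.cast h1 (f i) = b
    rw [hi]
    exact Fin.ext rfl) (fun j b => by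
    have h2 := hf0 j (Fin.cast h1.symm b)
    have h3 : (Finset.univ.filter fun i => Fin.cast h1 (f i) = b) =
        Finset.univ.filter fun i => f i = Fin.cast h1.symm b := Finset.filter_congr fun i _ => by
      rw [Fin.ext_iff, Fin.ext_iff]
      rfl
    rw [h3]
    exact h2)
  exact rational_of_gens (h.trdeg (by omega)) t ht

end

end Pool.Agent.T9h38.Ab
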