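import Pool.Agent.T9h38.Ab.Cover

/-!
Bicanonical forms on elementary abelian covers of degree `2 ^ s` of projective space.
-/

set_option autoImplicit false
set_option linter.unusedSectionVars false

open FF Pool.Agent.W602.GT Pool.Agent.T9h38.Cyc

namespace Pool.Agent.T9h38.Ab

section

variable {k L : Type} [Field k] [Field L] [Algebra k L]

/-- the order of `dx₁ ∧ ⋯ ∧ dxₙ` and the orders of linear forms in general position -/
theorem det_bound (P : Place k L) {n N : ℕ} {x : Fin n → L} (hx : AlgebraicIndependent k x)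
    {c : Fin N → Fin (n + 1) → k} (hc : GenPos c) (D : Fin n → Derivation k L L)
    (hD : ∀ a, DerReg P (D a)) : ∃ v W : ℤ, v ≤ 0 ∧ (∀ i, v ≤ P.ord (lin x (c i))) ∧
      ∑ i, (P.ord (lin x (c i)) - v) ≤ W ∧ 0 ≤ W ∧
      ((Matrix.of fun a i => D a (x i)).det = 0 ∨
        ((n : ℤ) + 1) * v + (if W = 0 then 0 else W - 1) ≤
          P.ord (Matrix.of fun a i => D a (x i)).det) := by
  classical
  -- the linear form of the smallest order
  obtain ⟨k0, hk0⟩ := Finite.exists_min fun j : Fin (n + 1) => P.ord (hom x j)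
  have hsingle : (Pi.single k0 (1 : k) : Fin (n + 1) → k) ≠ 0 := fun h => by
    have := congrFun h k0
    simp at this
  set v0 : L := hom x k0 with hv0
  have hv0l : lin x (Pi.single k0 (1 : k)) = v0 := lin_single x k0
  have hv0ne : v0 ≠ 0 := by
    rw [← hv0l]
    exact lin_ne hx hsingle
  have hv0le : P.ord v0 ≤ 0 := by
    have h1 := hk0 0
    have h2 : hom x 0 = 1 := rfl
    rw [h2, P.ord_one] at h1
    exact h1
  have hmin : ∀ d : Fin (n + 1) → k, d ≠ 0 → P.ord v0 ≤ P.ord (lin x d) := by
    intro d hd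
    have h1 := ge_sum P Finset.univ (fun j => d j • hom x j) (a := P.ord v0)
      fun j _ => ge_smul P (d j) (Or.inr (hk0 j))
    exact h1.resolve_left (lin_ne hx hd)
  -- the hyperplanes through the centre
  let S : Finset (Fin N) := Finset.univ.filter fun i => P.ord v0 < P.ord (lin x (c i))
  have hspan : ∀ (s : Finset (Fin N)), s ⊆ S → ∀ d ∈ Submodule.span k (c '' s),
      lin x d = 0 ∨ P.ord v0 + 1 ≤ P.ord (lin x d) := by
    intro s hs d hd
    induction hd using Submodule.span_induction with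
    | mem d hd =>
      obtain ⟨i, hi, rfl⟩ := hd
      have h1 : P.ord v0 < P.ord (lin x (c i)) := (Finset.mem_filter.1 (hs hi)).2
      exact Or.inr (by omega)
    | zero => exact Or.inl (lin_zero x)
    | add f g _ _ hf hg =>
      rw [lin_add]
      exact ge_add P hf hg
    | smul r f _ hf =>
      rw [Cyc.lin_smul]
      exact ge_smul P r hf
  have hnot : ∀ (s : Finset (Fin N)), s ⊆ S →
      (Pi.single k0 (1 : k) : Fin (n + 1) → k) ∉ Submodule.span k (c '' s) := by
    intro s hs h
    rcases hspan s hs _ h with h1 | h1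
    · exact lin_ne hx hsingle h1
    · rw [hv0l] at h1
      omega
  have hScard : S.card ≤ n := by
    by_contra hcon
    obtain ⟨s, hs, hsc⟩ := Finset.exists_subset_card_eq (show n + 1 ≤ S.card by omega)
    have h1 := hc s (by omega)
    have h2 : Submodule.span k (Set.range fun i : s => c i) = ⊤ := by
      apply h1.span_eq_top_of_card_eq_finrank'
      simp [hsc]
    apply hnot s hs
    have h3 : (Set.range fun i : s => c i) = c '' s := by
      ext d
      simp
    rw [← h3, h2]
    trivial
  have hSind := hc S (by omega)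
  have hSinj : ∀ i ∈ S, ∀ j ∈ S, c i = c j → i = j := by
    intro i hi j hj hij
    have h1 := hSind.injective (a₁ := (⟨i, hi⟩ : S)) (a₂ := (⟨j, hj⟩ : S)) hij
    exact congrArg Subtype.val h1
  have himg : (Set.range fun i : S => c i) = c '' (S : Set (Fin N)) := by
    ext d
    simp
  have hset : LinearIndepOn k id (insert (Pi.single k0 (1 : k)) (c '' (S : Set (Fin N)))) := by
    refine LinearIndepOn.id_insert ?_ (hnot S (Finset.Subset.refl S))
    rw [← himg]
    exact hSind.linearIndepOn_id
  obtain ⟨v, hv, hv00, hvS⟩ := exists_basis hset (Set.mem_insert _ _)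
  have hvne : ∀ j, v j ≠ 0 := fun j => hv.ne_zero j
  -- the index of a hyperplane through the centre in the basis
  have hex : ∀ i : S, ∃ j : Fin n, v j.succ = c i := by
    intro i
    obtain ⟨j, hj⟩ := hvS (Set.mem_insert_of_mem _ ⟨i, i.2, rfl⟩)
    have hj' : v j = c i := hj
    refine Fin.cases (fun h => ?_) (fun j h => ⟨j, h⟩) j hj'
    exfalso
    rw [hv00] at h
    apply hnot {(i : Fin N)} (Finset.singleton_subset_iff.2 i.2)
    rw [h]
    exact Submodule.subset_span ⟨i, by simp, rfl⟩
  choose φ hφ using hex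
  have hφinj : Function.Injective φ := by
    intro i j hij
    have h1 : c i = c j := by rw [← hφ i, ← hφ j, hij]
    exact Subtype.ext (hSinj i i.2 j j.2 h1)
  -- the coordinates
  let f : Fin n → L := fun j => lin x (v j.succ) / v0
  have hf0 : ∀ j, f j ≠ 0 := fun j => div_ne_zero (lin_ne hx (hvne _)) hv0ne
  have hford : ∀ j, P.ord (f j) = P.ord (lin x (v j.succ)) - P.ord v0 := fun j =>
    P.ord_div (lin_ne hx (hvne _)) hv0ne
  have hfge : ∀ j, 0 ≤ P.ord (f j) := fun j => by
    rw [hford]
    have := hmin _ (hvne j.succ)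
    omega
  let W : ℤ := ∑ j, P.ord (f j)
  have hW0 : 0 ≤ W := Finset.sum_nonneg fun j _ => hfge j
  -- the determinants
  let A : Matrix (Fin (n + 1)) (Fin (n + 1)) k := Matrix.of v
  have hA : A.det ≠ 0 := by
    have h1 : LinearIndependent k A.row := hv
    rw [Matrix.linearIndependent_rows_iff_isUnit, Matrix.isUnit_iff_isUnit_det] at h1
    exact h1.ne_zero
  have hdet : algebraMap k L A.det * (Matrix.of fun a i => D a (x i)).det =
      v0 ^ (n + 1) * (Matrix.of fun a i => D a (f i)).det := by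
    have h1 : (vm (hom x) D).det = (Matrix.of fun a i => D a (x i)).det := by
      rw [vm_one _ _ rfl]
      rfl
    rw [← h1, ← vm_lin]
    have h2 : (fun i => ∑ j, A i j • hom x j) = fun i => v0 * (lin x (v i) / v0) := by
      funext i
      rw [mul_div_cancel₀ _ hv0ne]
      rfl
    rw [h2, vm_scale, vm_one _ _ (by rw [hv00, hv0l, div_self hv0ne])]
  have hval : (Matrix.of fun a i => D a (x i)).det =
      algebraMap k L A.det⁻¹ * (v0 ^ (n + 1) * (Matrix.of fun a i => D a (f i)).det) := by
    rw [← hdet, ← mul_assoc, ← map_mul, inv_mul_cancel₀ hA, map_one, one_mul]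
  -- the order of the last determinant
  have hord : (Matrix.of fun a i => D a (f i)).det = 0 ∨
      (if W = 0 then 0 else W - 1) ≤ P.ord (Matrix.of fun a i => D a (f i)).det := by
    by_cases hdz : (Matrix.of fun a i => D a (f i)).det = 0
    · exact Or.inl hdz
    right
    split_ifs with hW
    · have h1 : ∀ j, P.ord (f j) = 0 := fun j =>
        (Finset.sum_eq_zero_iff_of_nonneg fun j _ => hfge j).1 hW j (Finset.mem_univ j)
      have h2 : P.Reg (Matrix.of fun a i => D a (f i)).det :=
        reg_det P _ fun a j => hD a _ (Or.inr (h1 j).ge)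
      exact (P.reg_iff hdz).1 h2
    · obtain ⟨t, ht, ht1⟩ := P.surj
      have h1 := log_det P f hf0 D hD t ht ht1
      have h2 : (Matrix.of fun a i => D a (f i)).det =
          (∏ j, f j) * (Matrix.of fun a j => D a (f j) / f j).det := by
        have h3 : (Matrix.of fun a i => D a (f i)) =
            Matrix.of fun a j => f j * (Matrix.of fun a j => D a (f j) / f j) a j := by
          ext a j
          rw [Matrix.of_apply, Matrix.of_apply, Matrix.of_apply, mul_div_cancel₀ _ (hf0 j)]
        rw [h3, Matrix.det_mul_row]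
      have h3 : (Matrix.of fun a j => D a (f j) / f j).det ≠ 0 := by
        intro h
        apply hdz
        rw [h2, h, mul_zero]
      have h4 := (P.reg_iff (mul_ne_zero ht h3)).1 h1
      rw [P.ord_mul ht h3, ht1] at h4
      rw [h2, P.ord_mul (Finset.prod_ne_zero_iff.2 fun j _ => hf0 j) h3,
        ord_prod P _ _ fun j _ => hf0 j]
      change W - 1 ≤ W + _
      omega
  refine ⟨P.ord v0, W, hv0le, fun i => hmin _ (hc.ne_zero i), ?_, hW0, ?_⟩
  · have h1 : ∑ i ∈ S, (P.ord (lin x (c i)) - P.ord v0) =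
        ∑ i, (P.ord (lin x (c i)) - P.ord v0) := by
      refine Finset.sum_subset (Finset.subset_univ S) fun i _ hi => ?_
      have h2 : ¬ P.ord v0 < P.ord (lin x (c i)) := fun h => hi (Finset.mem_filter.2
        ⟨Finset.mem_univ i, h⟩)
      have h3 := hmin _ (hc.ne_zero i)
      omega
    rw [← h1]
    have h3 : ∑ i ∈ S, (P.ord (lin x (c i)) - P.ord v0) = ∑ i : S, P.ord (f (φ i)) := by
      rw [← Finset.sum_coe_sort S]
      refine Finset.sum_congr rfl fun i _ => ?_
      rw [hford, hφ]
    have h4 : ∑ i : S, P.ord (f (φ i)) = ∑ j ∈ Finset.univ.image φ, P.ord (f j) := by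
      rw [Finset.sum_image fun i _ j _ hij => hφinj hij]
    rw [h3, h4]
    exact Finset.sum_le_sum_of_subset_of_nonneg (Finset.subset_univ _) fun j _ _ => hfge j
  · rcases hord with hord | hord
    · left
      rw [hval, hord, mul_zero, mul_zero]
    by_cases hdz : (Matrix.of fun a i => D a (f i)).det = 0
    · left
      rw [hval, hdz, mul_zero, mul_zero]
    right
    have hAi : algebraMap k L A.det⁻¹ ≠ 0 := by simpa using hA
    rw [hval, P.ord_mul hAi (mul_ne_zero (pow_ne_zero _ hv0ne) hdz), P.ord_const (inv_ne_zero hA),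
      P.ord_mul (pow_ne_zero _ hv0ne) hdz, P.ord_pow]
    push_cast
    linarith

/-- **Regularity.** The form `(dx₁ ∧ ⋯ ∧ dxₙ)² / ∏ l_i` is regular, if each of the linear forms
occurs with an odd exponent in a square, and if there are at least `2 n + 2` of them. -/
theorem reg_biform (P : Place k L) {n N : ℕ} {x : Fin n → L} (hx : AlgebraicIndependent k x)
    {c : Fin N → Fin (n + 1) → k} (hc : GenPos c) (B : Finset (Fin N)) (hB : 2 * (n + 1) ≤ B.card)
    (hpar : ∀ i ∈ B, ∃ (e : Fin N → ℕ) (w : L), w ≠ 0 ∧ w ^ 2 = ∏ i, lin x (c i) ^ e i ∧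
      2 ∣ ∑ i, e i ∧ ¬ 2 ∣ e i) (D : Fin n → Derivation k L L) (hD : ∀ a, DerReg P (D a)) :
    P.Reg ((∏ i ∈ B, lin x (c i))⁻¹ * (Matrix.of fun a i => D a (x i)).det ^ 2) := by
  classical
  have hlf : ∀ i, lin x (c i) ≠ 0 := fun i => lin_ne hx (hc.ne_zero i)
  obtain ⟨v, W, hv, hvi, hsum, hW, hdet⟩ := det_bound P hx hc D hD
  by_cases hdz : (Matrix.of fun a i => D a (x i)).det = 0
  · left
    rw [hdz]
    simp
  right
  replace hdet := hdet.resolve_left hdz
  have hpr : (∏ i ∈ B, lin x (c i)) ≠ 0 := Finset.prod_ne_zero_iff.2 fun i _ => hlf i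
  rw [P.ord_mul (inv_ne_zero hpr) (pow_ne_zero _ hdz), P.ord_inv, P.ord_pow,
    ord_prod P _ _ fun i _ => hlf i]
  generalize P.ord (Matrix.of fun a i => D a (x i)).det = o at hdet ⊢
  have hsB : ∑ i ∈ B, P.ord (lin x (c i)) =
      (B.card : ℤ) * v + ∑ i ∈ B, (P.ord (lin x (c i)) - v) := by
    rw [Finset.sum_sub_distrib, Finset.sum_const, nsmul_eq_mul]
    ring
  have hsBle : ∑ i ∈ B, (P.ord (lin x (c i)) - v) ≤ ∑ i, (P.ord (lin x (c i)) - v) :=
    Finset.sum_le_sum_of_subset_of_nonneg (Finset.subset_univ _) fun i _ _ => by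
      have := hvi i
      omega
  have hsB0 : 0 ≤ ∑ i ∈ B, (P.ord (lin x (c i)) - v) := Finset.sum_nonneg fun i _ => by
    have := hvi i
    omega
  have hBv : ((B.card : ℤ) - 2 * ((n : ℤ) + 1)) * v ≤ 0 := by
    refine mul_nonpos_of_nonneg_of_nonpos ?_ hv
    have h1 : ((2 * (n + 1) : ℕ) : ℤ) ≤ (B.card : ℤ) := by exact_mod_cast hB
    push_cast at h1
    linarith
  rw [hsB]
  push_cast
  -- the parity argument
  have hkey : ¬ (W = 1 ∧ ∑ i ∈ B, (P.ord (lin x (c i)) - v) = 1) := by
    rintro ⟨hW1, hB1⟩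
    have hne : ∃ i ∈ B, P.ord (lin x (c i)) - v ≠ 0 := by
      by_contra hcon
      push Not at hcon
      rw [Finset.sum_eq_zero hcon] at hB1
      exact absurd hB1 (by norm_num)
    obtain ⟨i0, hi0, hi0v⟩ := hne
    have h0 : ∀ i, 0 ≤ P.ord (lin x (c i)) - v := fun i => by
      have := hvi i
      omega
    have htot : ∑ i, (P.ord (lin x (c i)) - v) =
        (P.ord (lin x (c i0)) - v) + ∑ i ∈ Finset.univ.erase i0, (P.ord (lin x (c i)) - v) :=
      (Finset.add_sum_erase _ _ (Finset.mem_univ i0)).symm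
    have hrest : 0 ≤ ∑ i ∈ Finset.univ.erase i0, (P.ord (lin x (c i)) - v) :=
      Finset.sum_nonneg fun i _ => h0 i
    have hi01 : P.ord (lin x (c i0)) - v = 1 := by
      have := h0 i0
      omega
    have hrest0 : ∑ i ∈ Finset.univ.erase i0, (P.ord (lin x (c i)) - v) = 0 := by omega
    have hother : ∀ i, i ≠ i0 → P.ord (lin x (c i)) = v := by
      intro i hi
      have h1 := (Finset.sum_eq_zero_iff_of_nonneg fun i _ => h0 i).1 hrest0 i
        (Finset.mem_erase.2 ⟨hi, Finset.mem_univ i⟩)
      omega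
    obtain ⟨e, w, hw0, hw, he, hei⟩ := hpar i0 hi0
    have h2 : (2 : ℤ) * P.ord w = ∑ i, (e i : ℤ) * P.ord (lin x (c i)) := by
      have h3 := congrArg P.ord hw
      rw [P.ord_pow, ord_prod P _ _ fun i _ => pow_ne_zero _ (hlf i)] at h3
      push_cast at h3
      rw [h3]
      exact Finset.sum_congr rfl fun i _ => P.ord_pow _ _
    have h3 : ∑ i, (e i : ℤ) * P.ord (lin x (c i)) = (∑ i, (e i : ℤ)) * v + e i0 := by
      have h4 : ∀ i, (e i : ℤ) * P.ord (lin x (c i)) =
          (e i : ℤ) * v + (if i = i0 then (e i0 : ℤ) else 0) := by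
        intro i
        split_ifs with h5
        · subst h5
          have h6 : P.ord (lin x (c i)) = v + 1 := by omega
          rw [h6]
          ring
        · rw [hother i h5, add_zero]
      rw [Finset.sum_congr rfl fun i _ => h4 i, Finset.sum_add_distrib, Finset.sum_mul]
      simp
    obtain ⟨q, hq⟩ := he
    have hq' : (∑ i, (e i : ℤ)) = 2 * (q : ℤ) := by exact_mod_cast hq
    rw [h3, hq'] at h2
    apply hei
    have h5 : (2 : ℤ) ∣ (e i0 : ℤ) := ⟨P.ord w - q * v, by linarith⟩
    exact_mod_cast h5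
  generalize ∑ i ∈ B, (P.ord (lin x (c i)) - v) = sB at hsBle hsB0 hkey ⊢
  generalize ∑ i, (P.ord (lin x (c i)) - v) = sA at hsum hsBle
  have h7 : ((B.card : ℤ) - 2 * ((n : ℤ) + 1)) * v = (B.card : ℤ) * v - 2 * (((n : ℤ) + 1) * v) := by
    ring
  rw [h7] at hBv
  generalize ((n : ℤ) + 1) * v = X at hdet hBv
  generalize (B.card : ℤ) * v = Y at hBv ⊢
  split_ifs at hdet with hW0
  · omega
  · rcases lt_or_ge W 2 with h8 | h8
    · have h9 : W = 1 := by omega
      have h10 : sB = 0 := by
        by_contra h11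
        exact hkey ⟨h9, by omega⟩
      omega
    · omega

/-- a nonzero regular form shows that the Kodaira dimension is not negative -/
theorem kod_of_form {n q : ℕ} (hq : 0 < q) (ω : (Fin n → Derivation k L L) → L) (hω : IsPluri q ω)
    (hreg : ∀ P : Place k L, RegAt P ω) (hne : ∃ D, ω D ≠ 0) :
    KodGe k L n (fun _ => False) 0 := by
  obtain ⟨D, hD⟩ := hne
  refine ⟨q, hq, fun _ => ω, fun _ => ⟨hω, fun P hP D hD => ?_, fun P hP _ => hreg P⟩, D, hD, ?_⟩
  · exact hreg P D fun i => (fun f hf => by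
      by_cases hf0 : f = 0
      · rw [hf0, map_zero]
        exact P.reg_zero
      · have h1 := hD i f
        have h2 : D i f = D i f / f * f := (div_mul_cancel₀ _ hf0).symm
        rw [h2]
        exact P.reg_mul h1 hf)
  · exact algebraicIndependent_empty_type_iff.2 (algebraMap k L).injective

end

variable {k L : Type} [Field k] [IsAlgClosed k] [CharZero k] [Field L] [Algebra k L]
  {n N s : ℕ} {c : Fin N → Fin (n + 1) → k} {a : Fin s → Fin N → ℕ} {x : Fin n → L} {y : Fin s → L}

/-- **Elementary abelian covers with many branch hyperplanes** have Kodaira dimension `≥ 0`. -/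
theorem AbCover.kod (h : AbCover 2 c a x y) (hc : GenPos c) (hz : ∀ j, 2 ∣ ∑ i, a j i)
    (hB : 2 * n + 2 ≤ (branch 2 a).card) : KodGe k L n (fun _ => False) 0 := by
  refine kod_of_form (q := 2) (by norm_num)
    (fun D => (∏ i ∈ branch 2 a, lin x (c i))⁻¹ * (Matrix.of fun a i => D a (x i)).det ^ 2)
    (fun A D => ?_) (fun P D hD => ?_) ?_
  · have h1 : (Matrix.of fun a i => (∑ j, A a j • D j) (x i)) =
        A * Matrix.of fun a i => D a (x i) := by
      ext a i
      rw [Matrix.mul_apply]
      change (∑ l, A a l • D l) (x i) = ∑ l, A a l * D l (x i)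
      have h0 : ∀ (s : Finset (Fin n)) (c : Fin n → L), (∑ l ∈ s, c l • D l) (x i)
          = ∑ l ∈ s, c l * D l (x i) := by
        intro s c
        classical
        induction s using Finset.induction_on with
        | empty => simp
        | insert l s hl ih =>
          rw [Finset.sum_insert hl, Finset.sum_insert hl, Derivation.add_apply, ih]
          rfl
      exact h0 _ _
    change (∏ i ∈ branch 2 a, lin x (c i))⁻¹ *
      (Matrix.of fun a i => (∑ j, A a j • D j) (x i)).det ^ 2 =
      A.det ^ 2 * ((∏ i ∈ branch 2 a, lin x (c i))⁻¹ * (Matrix.of fun a i => D a (x i)).det ^ 2)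
    rw [h1, Matrix.det_mul]
    ring
  · refine reg_biform P h.indep hc (branch 2 a) (by omega) (fun i hi => ?_) D hD
    obtain ⟨-, j, hj⟩ := Finset.mem_filter.1 hi
    exact ⟨a j, y j, h.y_ne hc (by norm_num) j, h.root j, hz j, hj⟩
  · obtain ⟨D, hD⟩ := exists_dual (h.basis (by norm_num))
    refine ⟨D, ?_⟩
    change (∏ i ∈ branch 2 a, lin x (c i))⁻¹ * (Matrix.of fun a i => D a (x i)).det ^ 2 ≠ 0
    rw [hD, Matrix.det_one, one_pow, mul_one]
    exact inv_ne_zero (Finset.prod_ne_zero_iff.2 fun i _ => lin_ne h.indep (hc.ne_zero i))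

end Pool.Agent.T9h38.Ab
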