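import Pool.Agent.T9h38.Cyc.Rat

/-!
The quotients of linear forms in general position within classes generate the field of rational
functions. Fields generated by several roots of monomials.
-/

set_option autoImplicit false
set_option linter.unusedSectionVars false

open Pool.Agent.W602.GT Pool.Agent.T9h38.Cyc

namespace Pool.Agent.T9h38.Ab

section

variable {k L : Type} [Field k] [Field L] [Algebra k L]

theorem alg_of_basis {ι : Type} {x : ι → L} (hx : IsTranscendenceBasis k x)
    (F : IntermediateField k L) (hF : ∀ i, x i ∈ F) : Algebra.IsAlgebraic F L := by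
  have h1 := hx.isAlgebraic_field
  have hle : IntermediateField.adjoin k (Set.range x) ≤ F := by
    rw [IntermediateField.adjoin_le_iff]
    rintro _ ⟨i, rfl⟩
    exact hF i
  letI : Algebra (IntermediateField.adjoin k (Set.range x)) F :=
    (IntermediateField.inclusion hle).toRingHom.toAlgebra
  haveI : IsScalarTower (IntermediateField.adjoin k (Set.range x)) F L :=
    IsScalarTower.of_algebraMap_eq fun _ => rfl
  exact Algebra.IsAlgebraic.tower_top (K := IntermediateField.adjoin k (Set.range x)) F

end

variable {k L : Type} [Field k] [IsAlgClosed k] [Field L] [Algebra k L]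

/-- a finite family which generates a field containing the coordinates has at least `n` members -/
theorem le_card_of_mem {n : ℕ} {x : Fin n → L} (hx : IsTranscendenceBasis k x) {T : Type} [Fintype T]
    (z : T → L) (hz : ∀ i, x i ∈ IntermediateField.adjoin k (Set.range z)) :
    n ≤ Fintype.card T := by
  have h1 := alg_of_basis hx _ hz
  have h2 : Algebra.IsAlgebraic (Algebra.adjoin k (Set.range z)) L := alg_adjoin h1
  have h3 : Algebra.trdeg k L ≤ Cardinal.mk (Set.range z) := by
    have h4 : Algebra.IsAlgebraic (Algebra.adjoin k (Set.range z)) L := h2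
    obtain ⟨s, hs, hs2⟩ := exists_isTranscendenceBasis_subset (R := k) (Set.range z)
    rw [← hs2.cardinalMk_eq_trdeg]
    exact Cardinal.mk_le_mk_of_subset hs
  rw [trdeg_of_basis hx] at h3
  have h4 : (n : Cardinal) ≤ (Fintype.card T : Cardinal) := by
    refine h3.trans (Cardinal.mk_range_le.trans ?_)
    rw [Cardinal.mk_fintype]
  exact_mod_cast h4

variable {n N : ℕ} {c : Fin N → Fin (n + 1) → k} {x : Fin n → L}

/-- **Quotients within classes generate.** -/
theorem ratios_gen {l : ℕ} (hx : IsTranscendenceBasis k x) (hc : GenPos c)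
    (hN : N = n + (l + 1)) (f : Fin N → Fin (l + 1)) (β : Fin (l + 1) → Fin N)
    (hβ : ∀ b, f (β b) = b) (F : IntermediateField k L)
    (hF : ∀ i, lin x (c i) / lin x (c (β (f i))) ∈ F) (j : Fin n) : x j ∈ F := by
  classical
  have hβinj : Function.Injective β := fun b b' hb => by rw [← hβ b, hb, hβ]
  have hlf : ∀ i, lin x (c i) ≠ 0 := fun i => lin_ne hx.1 (hc.ne_zero i)
  let T : Finset (Fin N) := Finset.univ \ Finset.univ.image β
  have hTmem : ∀ i, i ∈ T ↔ ∀ b, β b ≠ i := by
    intro i
    simp [T]
  have hTcard : T.card = n := by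
    rw [Finset.card_sdiff_of_subset (Finset.subset_univ _), Finset.card_image_of_injective _ hβinj]
    simp
    omega
  have hβT : ∀ b, β b ∉ T := fun b hb => (hTmem _).1 hb b rfl
  have hTb : ∀ b, (insert (β b) T).card = n + 1 := fun b => by
    rw [Finset.card_insert_of_notMem (hβT b), hTcard]
  -- quotients by the first base form
  set w : L := lin x (c (β 0)) with hw
  have hw0 : w ≠ 0 := hlf _
  have hcoord : ∀ F : IntermediateField k L, (∀ i ∈ T, lin x (c i) / w ∈ F) → ∀ j, x j ∈ F := by
    intro F hF
    refine coord_mem hc (hTb 0) hw0 F fun i hi => ?_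
    rcases Finset.mem_insert.1 hi with rfl | hi
    · rw [← hw, div_self hw0]
      exact one_mem F
    · exact hF i hi
  let z : T → L := fun i => lin x (c i) / w
  have hzind : AlgebraicIndependent k z := by
    refine (basis_of_alg (by simpa using hTcard) (trdeg_of_basis hx) z (alg_of_basis hx _ ?_)).1
    exact hcoord _ fun i hi => IntermediateField.subset_adjoin k _ ⟨⟨i, hi⟩, rfl⟩
  -- the coefficients
  have hcoef : ∀ j : Fin l, ∃ (β0 : k) (βc : T → k), β0 ≠ 0 ∧
      c (β j.succ) = β0 • c (β 0) + ∑ i, βc i • c i := by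
    intro j
    have h1 := hc (insert (β 0) T) (hTb 0).le
    have h2 : Submodule.span k (Set.range fun i : (insert (β 0) T : Finset (Fin N)) => c i) = ⊤ := by
      apply h1.span_eq_top_of_card_eq_finrank'
      rw [Fintype.card_coe, hTb 0, Module.finrank_fin_fun]
    have h3 : (Set.range fun i : (insert (β 0) T : Finset (Fin N)) => c i) =
        insert (c (β 0)) (Set.range fun i : T => c i) := by
      ext d
      simp only [Set.mem_range, Set.mem_insert_iff, Subtype.exists, Finset.mem_insert]
      constructor
      · rintro ⟨i, hi | hi, rfl⟩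
        · exact Or.inl (by rw [hi])
        · exact Or.inr ⟨i, hi, rfl⟩
      · rintro (rfl | ⟨i, hi, rfl⟩)
        · exact ⟨β 0, Or.inl rfl, rfl⟩
        · exact ⟨i, Or.inr hi, rfl⟩
    have h4 : c (β j.succ) ∈ Submodule.span k (insert (c (β 0)) (Set.range fun i : T => c i)) := by
      rw [← h3, h2]
      trivial
    obtain ⟨β0, v, hv, hv2⟩ := Submodule.mem_span_insert.1 h4
    obtain ⟨βc, hβc⟩ := (Submodule.mem_span_range_iff_exists_fun k).1 hv
    refine ⟨β0, βc, ?_, by rw [hv2, hβc]⟩
    rintro rfl
    rw [zero_smul, zero_add] at hv2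
    have h5 := hc (insert (β j.succ) T) (hTb _).le
    have h6 := h5.notMem_span_image (s := {i | (i : Fin N) ∈ T})
      (x := ⟨β j.succ, Finset.mem_insert_self _ _⟩) (fun h => hβT _ h)
    apply h6
    rw [hv2]
    refine Submodule.span_mono ?_ hv
    rintro _ ⟨i, rfl⟩
    exact ⟨⟨i, Finset.mem_insert_of_mem i.2⟩, i.2, rfl⟩
  choose β0 βc hβ0 hβc using hcoef
  let s : Option (Fin l) → L := fun o => lin x (c (β ((finSuccEquiv l).symm o))) / w
  let u : T → L := fun i => lin x (c i) / lin x (c (β (f i)))
  have hs0 : s none = 1 := by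
    change lin x (c (β ((finSuccEquiv l).symm none))) / w = 1
    rw [finSuccEquiv_symm_none, ← hw, div_self hw0]
  have hsj : ∀ j, s (some j) = algebraMap k L (β0 j) + ∑ i, algebraMap k L (βc j i) * z i := by
    intro j
    change lin x (c (β ((finSuccEquiv l).symm (some j)))) / w = _
    rw [finSuccEquiv_symm_some, hβc, lin_add, lin_smul, ← hw, add_div]
    congr 1
    · rw [Algebra.smul_def, mul_div_assoc, div_self hw0, mul_one]
    · have h1 : ∀ s : Finset T, lin x (∑ i ∈ s, βc j i • c i) = ∑ i ∈ s, βc j i • lin x (c i) := by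
        intro s
        induction s using Finset.induction_on with
        | empty => simp [lin_zero]
        | insert i s hi ih => rw [Finset.sum_insert hi, Finset.sum_insert hi, lin_add, lin_smul, ih]
      rw [h1, Finset.sum_div]
      refine Finset.sum_congr rfl fun i _ => ?_
      rw [Algebra.smul_def, mul_div_assoc]
  have hzs : ∀ i : T, z i / s (finSuccEquiv l (f i)) = u i := by
    intro i
    change lin x (c i) / w / (lin x (c (β ((finSuccEquiv l).symm (finSuccEquiv l (f i))))) / w) = _
    rw [Equiv.symm_apply_apply, div_div_div_cancel_right₀ hw0]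
  have hsF : ∀ o, s o ∈ F := by
    intro o
    cases o with
    | none =>
      rw [hs0]
      exact one_mem F
    | some j =>
      refine scale_mem hzind (fun i => finSuccEquiv l (f i)) βc β0 hβ0 s hs0 hsj F (fun i => ?_) j
      rw [hzs]
      exact hF i
  have hbF : ∀ b, lin x (c (β b)) / w ∈ F := by
    intro b
    have h1 := hsF (finSuccEquiv l b)
    change lin x (c (β ((finSuccEquiv l).symm (finSuccEquiv l b)))) / w ∈ F at h1
    rwa [Equiv.symm_apply_apply] at h1
  refine hcoord F (fun i hi => ?_) j
  have h1 : lin x (c i) / w = u ⟨i, hi⟩ * (lin x (c (β (f i))) / w) := by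
    change _ = lin x (c i) / lin x (c (β (f i))) * (lin x (c (β (f i))) / w)
    rw [div_mul_div_cancel₀ (hlf _)]
  rw [h1]
  exact mul_mem (hF i) (hbF _)

/-- **Fields generated by roots of monomials.** -/
theorem toric {T J : Type} [Fintype T] [Finite J] (u : T → Lˣ) (y : J → Lˣ) (m : ℕ) (hm : 0 < m)
    (a : J → T → ℕ) (hya : ∀ j, y j ^ m = ∏ i, u i ^ a j i)
    (hgen : IntermediateField.adjoin k ((Set.range fun j => (y j : L)) ∪
      Set.range fun i => (u i : L)) = ⊤) :
    ∃ t : Fin (Fintype.card T) → L, IntermediateField.adjoin k (Set.range t) = ⊤ := by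
  classical
  let S : Submodule ℤ (Quo k L) :=
    Submodule.span ℤ ((Set.range fun j => cls k (y j)) ∪ (Set.range fun i => cls k (u i)))
  have hfinS : Module.Finite ℤ S :=
    Module.Finite.span_of_finite ℤ ((Set.finite_range _).union (Set.finite_range _))
  have hfreeS : Module.Free ℤ S := Module.free_of_finite_type_torsion_free'
  let S0 : Submodule ℤ (Quo k L) := Submodule.span ℤ (Set.range fun i => cls k (u i))
  have hfinS0 : Module.Finite ℤ S0 := Module.Finite.span_of_finite ℤ (Set.finite_range _)
  have hmS : ∀ q ∈ S, (m : ℤ) • q ∈ S0 := by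
    intro q hq
    induction hq using Submodule.span_induction with
    | mem q hq =>
      rcases hq with ⟨j, rfl⟩ | ⟨i, rfl⟩
      · change (m : ℤ) • cls k (y j) ∈ S0
        rw [← cls_zpow, zpow_natCast, hya, cls_prod]
        exact sum_mem fun i _ => by
          rw [cls_pow, ← natCast_zsmul]
          exact S0.smul_mem _ (Submodule.subset_span ⟨i, rfl⟩)
      · exact S0.smul_mem _ (Submodule.subset_span ⟨i, rfl⟩)
    | zero => rw [smul_zero]; exact zero_mem _
    | add f g _ _ hf hg => rw [smul_add]; exact add_mem hf hg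
    | smul r f _ hf => rw [smul_comm]; exact S0.smul_mem _ hf
  let φ : S →ₗ[ℤ] S0 :=
    { toFun := fun q => ⟨(m : ℤ) • (q : Quo k L), hmS q q.2⟩
      map_add' := fun p q => Subtype.ext (by simp)
      map_smul' := fun r q => Subtype.ext (by
        change (m : ℤ) • (r • (q : Quo k L)) = r • ((m : ℤ) • (q : Quo k L))
        rw [smul_comm]) }
  have hφ : Function.Injective φ := by
    rw [← LinearMap.ker_eq_bot, LinearMap.ker_eq_bot']
    intro q hq
    have h1 : (m : ℤ) • (q : Quo k L) = 0 := congrArg Subtype.val hq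
    rw [natCast_zsmul] at h1
    exact Subtype.ext (quo_torsion _ m hm h1)
  have hr : Module.finrank ℤ S ≤ Fintype.card T := by
    have h1 : Module.finrank ℤ S ≤ Module.finrank ℤ S0 :=
      LinearMap.finrank_le_finrank_of_injective hφ
    exact h1.trans (finrank_range_le_card (R := ℤ) fun i => cls k (u i))
  let b := Module.finBasis ℤ S
  have hlift : ∀ j, ∃ g : Lˣ, cls k g = (b j : Quo k L) := fun j => cls_surj _
  choose g hg using hlift
  let t : Fin (Fintype.card T) → L := fun j =>
    if h : (j : ℕ) < Module.finrank ℤ S then (g ⟨j, h⟩ : L) else 1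
  refine ⟨t, ?_⟩
  have hgt : ∀ j, ((g j : Lˣ) : L) ∈ IntermediateField.adjoin k (Set.range t) := by
    intro j
    refine IntermediateField.subset_adjoin k _ ⟨⟨j, j.2.trans_le hr⟩, ?_⟩
    simp [t]
  have hmem : ∀ h : Lˣ, cls k h ∈ S → (h : L) ∈ IntermediateField.adjoin k (Set.range t) := by
    intro h hh
    have h1 : cls k (∏ j, g j ^ (b.repr ⟨cls k h, hh⟩ j)) = cls k h := by
      rw [cls_prod]
      have h2 := congrArg (Subtype.val) (b.sum_repr ⟨cls k h, hh⟩)
      rw [Submodule.coe_sum] at h2
      refine Eq.trans ?_ h2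
      refine Finset.sum_congr rfl fun j _ => ?_
      rw [cls_zpow, hg]
      rfl
    obtain ⟨r, hr⟩ := cls_eq h1
    rw [hr]
    refine mul_mem ?_ (IntermediateField.algebraMap_mem _ r)
    rw [Units.coe_prod]
    exact prod_mem fun j _ => by
      rw [Units.val_zpow_eq_zpow_val]
      exact zpow_mem (hgt j) _
  rw [eq_top_iff, ← hgen, IntermediateField.adjoin_le_iff]
  rintro _ (⟨j, rfl⟩ | ⟨i, rfl⟩)
  · exact hmem (y j) (Submodule.subset_span (Or.inl ⟨j, rfl⟩))
  · exact hmem (u i) (Submodule.subset_span (Or.inr ⟨i, rfl⟩))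

end Pool.Agent.T9h38.Ab
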