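import Pool.Agent.T9h38.Ab.Conic2
import Pool.Agent.T9h38.Ab.Comb
import Pool.Agent.T9h38.Ab.Form

/-!
Bidouble covers of projective space branched along hyperplanes in general position.
-/

set_option autoImplicit false
set_option linter.unusedSectionVars false
set_option linter.overlappingInstances false

open FF Pool.Agent.W602.GT Pool.Agent.T9h38.Cyc
open Pool.Agent.W619.PQ (IsUniruled)
open Pool.Agent.W619.TW (IsUnirational)

namespace Pool.Agent.T9h38.Ab

section one

variable {k L : Type} [Field k] [IsAlgClosed k] [CharZero k] [Field L] [Algebra k L]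
  {N : ℕ} {c : Fin N → Fin (1 + 1) → k} {x : Fin 1 → L}

/-- the product of powers of the linear forms modulo squares -/
theorem prod_form3 (hx : IsTranscendenceBasis k x) (hc : GenPos c) (T : Fin 3 → Fin N)
    (hinj : Function.Injective T) (a : Fin N → ℕ) (h0 : a (T 0) % 2 = 1) (h1 : a (T 1) % 2 = 0)
    (h2 : a (T 2) % 2 = 1) (hout : ∀ i, i ∉ Set.range T → a i % 2 = 0) :
    ∃ q : L, q ≠ 0 ∧ (∀ E : IntermediateField k L, (∀ i, x i ∈ E) → q ∈ E) ∧
      ∏ i, lin x (c i) ^ a i = q ^ 2 * (lin x (c (T 0)) / lin x (c (T 2))) := by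
  classical
  have hlf : ∀ i, lin x (c i) ≠ 0 := fun i => lin_ne hx.1 (hc.ne_zero i)
  let q0 : L := ∏ i, lin x (c i) ^ (a i / 2)
  refine ⟨q0 * lin x (c (T 2)), mul_ne_zero
    (Finset.prod_ne_zero_iff.2 fun i _ => pow_ne_zero _ (hlf i)) (hlf _), fun E hE =>
    mul_mem (prod_mem fun i _ => pow_mem (lin_mem E hE _) _) (lin_mem E hE _), ?_⟩
  have hs : ∏ i, lin x (c i) ^ a i = q0 ^ 2 * ∏ i, lin x (c i) ^ (a i % 2) := by
    rw [← Finset.prod_pow, ← Finset.prod_mul_distrib]
    refine Finset.prod_congr rfl fun i _ => ?_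
    rw [← pow_mul, ← pow_add]
    congr 1
    omega
  have hr : ∏ i, lin x (c i) ^ (a i % 2) = ∏ i : Fin 3, lin x (c (T i)) ^ (a (T i) % 2) := by
    symm
    refine Fintype.prod_of_injective _ hinj _ _ (fun i hi => ?_) (fun i => rfl)
    rw [hout i hi, pow_zero]
  rw [hs, hr, Fin.prod_univ_three, h0, h1, h2]
  have h6 := hlf (T 2)
  field_simp

theorem conic_one (hx : IsTranscendenceBasis k x) (hc : GenPos c) (T : Fin 3 → Fin N)
    (hinj : Function.Injective T) (a1 a2 : Fin N → ℕ) (h10 : a1 (T 0) % 2 = 1)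
    (h11 : a1 (T 1) % 2 = 0) (h12 : a1 (T 2) % 2 = 1) (h20 : a2 (T 0) % 2 = 0)
    (h21 : a2 (T 1) % 2 = 1) (h22 : a2 (T 2) % 2 = 1)
    (hout1 : ∀ i, i ∉ Set.range T → a1 i % 2 = 0) (hout2 : ∀ i, i ∉ Set.range T → a2 i % 2 = 0)
    (y1 y2 : L) (hy1 : y1 ^ 2 = ∏ i, lin x (c i) ^ a1 i) (hy2 : y2 ^ 2 = ∏ i, lin x (c i) ^ a2 i) :
    ∃ z : L, (∀ j, x j ∈ IntermediateField.adjoin k {z}) ∧
      y1 ∈ IntermediateField.adjoin k {z} ∧ y2 ∈ IntermediateField.adjoin k {z} := by
  classical
  haveI : CharZero L := charZero_of_injective_algebraMap (algebraMap k L).injective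
  have hlf : ∀ i, lin x (c i) ≠ 0 := fun i => lin_ne hx.1 (hc.ne_zero i)
  have hT01 : T 0 ≠ T 1 := fun h => absurd (hinj h) (by decide)
  have hT02 : T 0 ≠ T 2 := fun h => absurd (hinj h) (by decide)
  have hT12 : T 1 ≠ T 2 := fun h => absurd (hinj h) (by decide)
  obtain ⟨q1, hq1, hq1E, hp1⟩ := prod_form3 hx hc T hinj a1 h10 h11 h12 hout1
  obtain ⟨q2, hq2, hq2E, hp2⟩ := prod_form3 hx hc (fun i => T (Equiv.swap 0 1 i))
    (hinj.comp (Equiv.swap (0 : Fin 3) 1).injective) a2 (by simpa using h21) (by simpa using h20)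
    (by
      have : Equiv.swap (0 : Fin 3) 1 2 = 2 := by decide
      rw [this]
      exact h22) (fun i hi => hout2 i fun ⟨j, hj⟩ => hi ⟨Equiv.swap 0 1 j, by
        change T (Equiv.swap 0 1 (Equiv.swap 0 1 j)) = i
        rw [Equiv.swap_apply_self, hj]⟩)
  have hs0 : Equiv.swap (0 : Fin 3) 1 0 = 1 := by decide
  have hs2 : Equiv.swap (0 : Fin 3) 1 2 = 2 := by decide
  rw [hs0, hs2] at hp2
  set la := lin x (c (T 0)) with hla
  set lb := lin x (c (T 1)) with hlb
  set lc := lin x (c (T 2)) with hlc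
  have hlcn : lc ≠ 0 := hlf _
  -- the relation
  obtain ⟨μ, ν, hμν⟩ : ∃ μ ν : k, c (T 2) = μ • c (T 0) + ν • c (T 1) := by
    have h1 := hc {T 0, T 1} (by rw [Finset.card_pair hT01])
    have h2 : LinearIndependent k ![c (T 0), c (T 1)] := by
      have h3 := h1.comp (fun r : Fin 2 => (⟨![T 0, T 1] r, by
        fin_cases r <;> simp⟩ : ({T 0, T 1} : Finset (Fin N)))) (by
          intro r r' h
          have h4 : ![T 0, T 1] r = ![T 0, T 1] r' := congrArg Subtype.val h
          fin_cases r <;> fin_cases r'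
          · rfl
          · exact absurd h4 hT01
          · exact absurd h4.symm hT01
          · rfl)
      convert h3 using 1
      funext r
      fin_cases r <;> rfl
    have h3 : c (T 2) ∈ Submodule.span k (Set.range ![c (T 0), c (T 1)]) := by
      rw [h2.span_eq_top_of_card_eq_finrank' (by simp)]
      trivial
    obtain ⟨b, hb⟩ := (Submodule.mem_span_range_iff_exists_fun k).1 h3
    refine ⟨b 0, b 1, ?_⟩
    rw [← hb, Fin.sum_univ_two]
    rfl
  have hpair : ∀ i j, i ≠ j → ∀ r : k, c i ≠ r • c j := by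
    intro i j hij r h
    have h1 := hc {i, j} (by rw [Finset.card_pair hij])
    have h2 := Fintype.linearIndependent_iff.1 h1 (fun l => if (l : Fin N) = i then 1 else -r) (by
      rw [Finset.sum_coe_sort ({i, j} : Finset (Fin N))
        (fun l => (if l = i then (1 : k) else -r) • c l), Finset.sum_pair hij]
      rw [if_pos rfl, if_neg hij.symm, h]
      simp) ⟨i, by simp⟩
    simp at h2
  have hμ : μ ≠ 0 := by
    rintro rfl
    rw [zero_smul, zero_add] at hμν
    exact hpair _ _ hT12.symm ν hμν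
  have hν : ν ≠ 0 := by
    rintro rfl
    rw [zero_smul, add_zero] at hμν
    exact hpair _ _ hT02.symm μ hμν
  set M : L := algebraMap k L μ with hM
  set V : L := algebraMap k L ν with hV
  have hMn : M ≠ 0 := by simpa [hM] using hμ
  have hVn : V ≠ 0 := by simpa [hV] using hν
  have hrel : M * (la / lc) + V * (lb / lc) = 1 := by
    have h1 : lc = M * la + V * lb := by
      rw [hlc, hμν, lin_add, Cyc.lin_smul, Cyc.lin_smul, Algebra.smul_def, Algebra.smul_def]
    field_simp
    exact h1.symm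
  obtain ⟨s, hs⟩ := IsAlgClosed.exists_pow_nat_eq (-(ν / μ)) (n := 2) (by norm_num)
  have hsn : s ≠ 0 := by
    rintro rfl
    have h1 : ν / μ ≠ 0 := div_ne_zero hν hμ
    apply h1
    linear_combination hs
  set S : L := algebraMap k L s with hS
  have hSn : S ≠ 0 := by simpa [hS] using hsn
  have hS2 : S ^ 2 = -(V / M) := by
    rw [hS, ← map_pow, hs, map_neg, map_div₀]
  set Y1 : L := y1 / q1 with hY1
  set Y2 : L := y2 / q2 with hY2
  have hY1s : Y1 ^ 2 = la / lc := by
    rw [hY1, div_pow, hy1, hp1, mul_div_cancel_left₀ _ (pow_ne_zero _ hq1)]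
  have hY2s : Y2 ^ 2 = lb / lc := by
    rw [hY2, div_pow, hy2, hp2, mul_div_cancel_left₀ _ (pow_ne_zero _ hq2)]
  set z : L := Y1 - S * Y2 with hz
  set z' : L := Y1 + S * Y2 with hz'
  have hzz : z * z' = M⁻¹ := by
    have h1 : z * z' = Y1 ^ 2 - S ^ 2 * Y2 ^ 2 := by
      rw [hz, hz']
      ring
    rw [h1, hY1s, hY2s, hS2]
    field_simp
    field_simp at hrel
    linear_combination hrel
  have hzn : z ≠ 0 := by
    intro h
    rw [h, zero_mul] at hzz
    exact inv_ne_zero hMn hzz.symm
  refine ⟨z, ?_⟩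
  set E := IntermediateField.adjoin k {z} with hE
  have hzE : z ∈ E := IntermediateField.subset_adjoin k _ rfl
  have hz'E : z' ∈ E := by
    have h1 : z' = M⁻¹ / z := by
      rw [← hzz, mul_div_cancel_left₀ _ hzn]
    rw [h1]
    exact div_mem (inv_mem (E.algebraMap_mem _)) hzE
  have h2E : (2 : L) ∈ E := by
    have h1 : (2 : L) = 1 + 1 := by norm_num
    rw [h1]
    exact add_mem (one_mem E) (one_mem E)
  have hY1E : Y1 ∈ E := by
    have h1 : Y1 = (z + z') / 2 := by
      rw [hz, hz']
      ring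
    rw [h1]
    exact div_mem (add_mem hzE hz'E) h2E
  have hY2E : Y2 ∈ E := by
    have h1 : Y2 = (z' - z) / (2 * S) := by
      rw [hz, hz']
      field_simp
      ring
    rw [h1]
    exact div_mem (sub_mem hz'E hzE) (mul_mem h2E (E.algebraMap_mem _))
  have hxE : ∀ j, x j ∈ E := by
    refine coord_mem hc (T := {T 0, T 2}) (Finset.card_pair hT02) hlcn E (fun i hi => ?_)
    rcases Finset.mem_insert.1 hi with rfl | hi
    · rw [← hla, ← hY1s]
      exact pow_mem hY1E 2
    · rw [Finset.mem_singleton.1 hi, ← hlc, div_self hlcn]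
      exact one_mem E
  refine ⟨hxE, ?_, ?_⟩
  · have h1 : y1 = Y1 * q1 := by rw [hY1, div_mul_cancel₀ _ hq1]
    rw [h1]
    exact mul_mem hY1E (hq1E E hxE)
  · have h1 : y2 = Y2 * q2 := by rw [hY2, div_mul_cancel₀ _ hq2]
    rw [h1]
    exact mul_mem hY2E (hq2E E hxE)

end one

variable {k L : Type} [Field k] [IsAlgClosed k] [CharZero k] [Field L] [Algebra k L]
  {n N m s : ℕ} {c : Fin N → Fin (n + 1) → k} {a : Fin s → Fin N → ℕ} {x : Fin n → L}
  {y : Fin s → L}

/-- a field which embeds in a field generated by `n` elements -/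
theorem AbCover.unirational_of_gens (h : AbCover m c a x y) (hm : 0 < m)
    (g : Fin n → AlgebraicClosure L)
    (hxg : ∀ j, algebraMap L (AlgebraicClosure L) (x j) ∈ IntermediateField.adjoin k (Set.range g))
    (hyg : ∀ j, algebraMap L (AlgebraicClosure L) (y j) ∈ IntermediateField.adjoin k (Set.range g)) :
    IsUnirational k L n := by
  set E := IntermediateField.adjoin k (Set.range g) with hE
  let ι : L →ₐ[k] AlgebraicClosure L := IsScalarTower.toAlgHom k L (AlgebraicClosure L)
  have hall : ∀ z, ι z ∈ E := by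
    intro z
    have h1 : (⊤ : IntermediateField k L) ≤ E.comap ι := by
      rw [← h.gen, IntermediateField.adjoin_le_iff]
      rintro _ (⟨j, rfl⟩ | ⟨j, rfl⟩)
      · exact hyg j
      · exact hxg j
    exact h1 (show z ∈ (⊤ : IntermediateField k L) from trivial)
  have hbas : IsTranscendenceBasis k fun j => algebraMap L (AlgebraicClosure L) (x j) :=
    (h.basis hm).algebraMap_comp
  have halg := alg_of_basis hbas E hxg
  have hg := basis_of_alg (n := n) (by simp) (trdeg_of_basis hbas) g halg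
  have e1 := hg.1.aevalEquivField
  let φ : L →ₐ[k] E := ι.codRestrict E.toSubalgebra hall
  exact ⟨(e1.symm.toAlgHom).comp φ⟩

theorem odd_of_label {z : ℕ} (h : (z : ZMod 2) = 1) : z % 2 = 1 := by
  have h1 : ((z : ℕ) : ZMod 2) = ((1 : ℕ) : ZMod 2) := by rw [h, Nat.cast_one]
  rwa [ZMod.natCast_eq_natCast_iff'] at h1

theorem even_of_label {z : ℕ} (h : (z : ZMod 2) = 0) : z % 2 = 0 := by
  rw [ZMod.natCast_eq_zero_iff] at h
  omega

/-- **The case of `2 n + 1` branch hyperplanes.** -/
theorem AbCover.unirational_odd {a : Fin 2 → Fin N → ℕ} {y : Fin 2 → L} (h : AbCover 2 c a x y)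
    (hc : GenPos c) (hz : ∀ j, 2 ∣ ∑ i, a j i) (hB : (branch 2 a).card = 2 * n + 1)
    (hn : 1 ≤ n) : IsUnirational k L n := by
  classical
  have hlab : ∀ i ∈ branch 2 a, label 2 a i ≠ 0 := fun i hi h0 =>
    (label_eq_zero_iff i).1 h0 hi
  obtain ⟨q, e, f, T, hq, hcov, hef, hne, hT0, hT1, hT2⟩ := pairs_triple (label 2 a)
    (branch 2 a).card (branch 2 a) rfl hlab (sum_branch hz) (by omega)
  -- parities
  have hT00 : a 0 (T 0) % 2 = 1 := odd_of_label (congrFun hT0 0)
  have hT01 : a 1 (T 0) % 2 = 0 := even_of_label (congrFun hT0 1)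
  have hT10 : a 0 (T 1) % 2 = 0 := even_of_label (congrFun hT1 0)
  have hT11 : a 1 (T 1) % 2 = 1 := odd_of_label (congrFun hT1 1)
  have hT20 : a 0 (T 2) % 2 = 1 := odd_of_label (congrFun hT2 0)
  have hT21 : a 1 (T 2) % 2 = 1 := odd_of_label (congrFun hT2 1)
  have hpar : ∀ j r, a r (e j) % 2 = a r (f j) % 2 := fun j r =>
    (ZMod.natCast_eq_natCast_iff' _ _ _).1 (congrFun (hef j) r)
  have hout : ∀ r i, i ∉ branch 2 a → a r i % 2 = 0 := fun r i hi =>
    even_of_label (congrFun ((label_eq_zero_iff i).2 hi) r)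
  -- the algebraic closure
  let Ω := AlgebraicClosure L
  let x' : Fin n → Ω := fun j => algebraMap L Ω (x j)
  let y' : Fin 2 → Ω := fun j => algebraMap L Ω (y j)
  have hx' : IsTranscendenceBasis k x' := (h.basis (by norm_num)).algebraMap_comp
  have hlin : ∀ d : Fin (n + 1) → k, Cyc.lin x' d = algebraMap L Ω (Cyc.lin x d) := by
    intro d
    rw [Cyc.lin, Cyc.lin, map_sum]
    refine Finset.sum_congr rfl fun j _ => ?_
    rw [Algebra.smul_def, Algebra.smul_def, map_mul, ← IsScalarTower.algebraMap_apply]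
    congr 1
    refine Fin.cases ?_ (fun j => ?_) j
    · exact (map_one _).symm
    · rfl
  have hy' : ∀ r, y' r ^ 2 = ∏ i, Cyc.lin x' (c i) ^ a r i := by
    intro r
    change algebraMap L Ω (y r) ^ 2 = _
    rw [← map_pow, h.root r, map_prod]
    refine Finset.prod_congr rfl fun i _ => ?_
    rw [map_pow, hlin]
  have hy01 : (y' 0 * y' 1) ^ 2 = ∏ i, Cyc.lin x' (c i) ^ (a 0 i + a 1 i) := by
    rw [mul_pow, hy', hy', ← Finset.prod_mul_distrib]
    exact Finset.prod_congr rfl fun i _ => (pow_add _ _ _).symm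
  have hlf : ∀ i, Cyc.lin x' (c i) ≠ 0 := fun i => lin_ne hx'.1 (hc.ne_zero i)
  have hyn : ∀ r, y' r ≠ 0 := by
    intro r h0
    have h1 := hy' r
    rw [h0] at h1
    exact (Finset.prod_ne_zero_iff.2 fun i _ => pow_ne_zero _ (hlf i))
      (h1.symm.trans (zero_pow two_ne_zero))
  rcases Nat.lt_or_ge 1 n with hn2 | hn1
  · -- dimension at least two
    obtain ⟨p, rfl⟩ : ∃ p, n = p + 2 := ⟨n - 2, by omega⟩
    obtain rfl : q = p + 1 := by omega
    -- the families
    let e' : Fin p → Fin N := fun j => e j.succ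
    let f' : Fin p → Fin N := fun j => f j.succ
    have hcov' : ∀ π : Fin 3 → Fin 3, Function.Surjective π → ∀ i ∈ branch 2 a,
        ∃ o, Sum.elim (Sum.elim e' f') ![e 0, f 0, T (π 0), T (π 1), T (π 2)] o = i := by
      intro π hπ i hi
      obtain ⟨o, rfl⟩ := hcov i hi
      rcases o with (o | o) | o
      · refine Fin.cases ?_ (fun o => ?_) o
        · exact ⟨Sum.inr 0, rfl⟩
        · exact ⟨Sum.inl (Sum.inl o), rfl⟩
      · refine Fin.cases ?_ (fun o => ?_) o
        · exact ⟨Sum.inr 1, rfl⟩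
        · exact ⟨Sum.inl (Sum.inr o), rfl⟩
      · obtain ⟨r, rfl⟩ := hπ o
        refine ⟨Sum.inr r.succ.succ, ?_⟩
        fin_cases r <;> rfl
    have hinj' : ∀ π : Fin 3 → Fin 3, Function.Surjective π → Function.Injective
        (Sum.elim (Sum.elim e' f') ![e 0, f 0, T (π 0), T (π 1), T (π 2)]) := by
      intro π hπ
      refine inj_of_card _ (branch 2 a) (hcov' π hπ) ?_
      rw [hB]
      simp
      omega
    have hout' : ∀ π : Fin 3 → Fin 3, Function.Surjective π → ∀ r i,
        i ∉ Set.range (Sum.elim (Sum.elim e' f') ![e 0, f 0, T (π 0), T (π 1), T (π 2)]) →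
        a r i % 2 = 0 := by
      intro π hπ r i hi
      exact hout r i fun hi' => hi (hcov' π hπ i hi')
    -- it is enough to find two of the three square roots
    have hfin : (∃ g : Fin p ⊕ Fin 2 → Ω,
        (∀ j, x' j ∈ IntermediateField.adjoin k (Set.range g)) ∧
        y' 0 ∈ IntermediateField.adjoin k (Set.range g) ∧
        y' 1 ∈ IntermediateField.adjoin k (Set.range g)) → IsUnirational k L (p + 2) := by
      rintro ⟨g, hg1, hg2, hg3⟩
      have hr : Set.range (fun i : Fin (p + 2) => g (finSumFinEquiv.symm i)) = Set.range g :=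
        finSumFinEquiv.symm.surjective.range_comp g
      refine h.unirational_of_gens (by norm_num) (fun i => g (finSumFinEquiv.symm i))
        (fun j => ?_) (fun j => ?_)
      · rw [hr]
        exact hg1 j
      · rw [hr]
        fin_cases j
        · exact hg2
        · exact hg3
    have hcases : (a 0 (e 0) % 2 = 1 ∧ a 1 (e 0) % 2 = 1) ∨ (a 0 (e 0) % 2 = 1 ∧ a 1 (e 0) % 2 = 0) ∨
        (a 0 (e 0) % 2 = 0 ∧ a 1 (e 0) % 2 = 1) := by
      have h1 : ¬ (a 0 (e 0) % 2 = 0 ∧ a 1 (e 0) % 2 = 0) := by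
        rintro ⟨h1, h2⟩
        apply hne 0
        funext r
        change (a r (e 0) : ZMod 2) = 0
        rw [ZMod.natCast_eq_zero_iff]
        fin_cases r
        · exact Nat.dvd_of_mod_eq_zero h1
        · exact Nat.dvd_of_mod_eq_zero h2
      omega
    have hp0 := hpar 0 0
    have hp1 := hpar 0 1
    rcases hcases with ⟨h1, h2⟩ | ⟨h1, h2⟩ | ⟨h1, h2⟩
    · -- the pair has the label of the third form
      have hπ : Function.Surjective (id : Fin 3 → Fin 3) := Function.surjective_id
      apply hfin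
      exact conic_gens hx' hc e' f' _ (hinj' id hπ) (a 0) (a 1) (fun j => hpar _ 0)
        (fun j => hpar _ 1) h1 (by simpa using hp0.symm.trans h1) hT00 hT10 hT20 h2
        (by simpa using hp1.symm.trans h2) hT01 hT11 hT21 (hout' id hπ 0) (hout' id hπ 1) (y' 0)
        (y' 1) (hy' 0) (hy' 1)
    · -- the pair has the label of the first form
      have hπ : Function.Surjective (![2, 1, 0] : Fin 3 → Fin 3) := by decide
      apply hfin
      obtain ⟨g, hg1, hg2, hg3⟩ := conic_gens hx' hc e' f' _ (hinj' ![2, 1, 0] hπ) (a 0)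
        (fun i => a 0 i + a 1 i) (fun j => hpar _ 0)
        (fun j => by
          have h3 := hpar j.succ 0
          have h4 := hpar j.succ 1
          change (a 0 (e j.succ) + a 1 (e j.succ)) % 2 = (a 0 (f j.succ) + a 1 (f j.succ)) % 2
          omega) h1 (by simpa using hp0.symm.trans h1) hT20 hT10 hT00
        (by
          change (a 0 (e 0) + a 1 (e 0)) % 2 = 1
          omega)
        (by
          change (a 0 (f 0) + a 1 (f 0)) % 2 = 1
          omega)
        (by
          change (a 0 (T 2) + a 1 (T 2)) % 2 = 0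
          omega)
        (by
          change (a 0 (T 1) + a 1 (T 1)) % 2 = 1
          omega)
        (by
          change (a 0 (T 0) + a 1 (T 0)) % 2 = 1
          omega) (hout' _ hπ 0) (fun i hi => by
          have h3 := hout' _ hπ 0 i hi
          have h4 := hout' _ hπ 1 i hi
          omega) (y' 0) (y' 0 * y' 1) (hy' 0) hy01
      refine ⟨g, hg1, hg2, ?_⟩
      have h3 : y' 1 = y' 0 * y' 1 / y' 0 := by
        rw [mul_div_cancel_left₀ _ (hyn 0)]
      rw [h3]
      exact div_mem hg3 hg2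
    · -- the pair has the label of the second form
      have hπ : Function.Surjective (![0, 2, 1] : Fin 3 → Fin 3) := by decide
      apply hfin
      obtain ⟨g, hg1, hg2, hg3⟩ := conic_gens hx' hc e' f' _ (hinj' ![0, 2, 1] hπ)
        (fun i => a 0 i + a 1 i) (a 1)
        (fun j => by
          have h3 := hpar j.succ 0
          have h4 := hpar j.succ 1
          change (a 0 (e j.succ) + a 1 (e j.succ)) % 2 = (a 0 (f j.succ) + a 1 (f j.succ)) % 2
          omega) (fun j => hpar _ 1)
        (by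
          change (a 0 (e 0) + a 1 (e 0)) % 2 = 1
          omega)
        (by
          change (a 0 (f 0) + a 1 (f 0)) % 2 = 1
          omega)
        (by
          change (a 0 (T 0) + a 1 (T 0)) % 2 = 1
          omega)
        (by
          change (a 0 (T 2) + a 1 (T 2)) % 2 = 0
          omega)
        (by
          change (a 0 (T 1) + a 1 (T 1)) % 2 = 1
          omega) h2 (by simpa using hp1.symm.trans h2) hT01 hT21 hT11 (fun i hi => by
          have h3 := hout' _ hπ 0 i hi
          have h4 := hout' _ hπ 1 i hi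
          omega) (hout' _ hπ 1) (y' 0 * y' 1) (y' 1) hy01 (hy' 1)
      refine ⟨g, hg1, ?_, hg3⟩
      have h3 : y' 0 = y' 0 * y' 1 / y' 1 := by
        rw [mul_div_cancel_right₀ _ (hyn 1)]
      rw [h3]
      exact div_mem hg2 hg3
  · -- dimension one
    obtain rfl : n = 1 := by omega
    obtain rfl : q = 0 := by omega
    have hcovT : ∀ i ∈ branch 2 a, ∃ o, T o = i := by
      intro i hi
      obtain ⟨o, rfl⟩ := hcov i hi
      rcases o with (o | o) | o
      · exact o.elim0
      · exact o.elim0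
      · exact ⟨o, rfl⟩
    have hinj : Function.Injective T := inj_of_card T (branch 2 a) hcovT (by
      rw [hB]
      simp)
    obtain ⟨z, hz1, hz2, hz3⟩ := conic_one hx' hc T hinj (a 0) (a 1) hT00 hT10 hT20 hT01 hT11 hT21
      (fun i hi => hout 0 i fun hi' => hi (hcovT i hi'))
      (fun i hi => hout 1 i fun hi' => hi (hcovT i hi')) (y' 0) (y' 1) (hy' 0) (hy' 1)
    have hr : Set.range (fun _ : Fin 1 => z) = {z} := Set.range_const
    refine h.unirational_of_gens (by norm_num) (fun _ => z) (fun j => ?_) (fun j => ?_)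
    · rw [hr]
      exact hz1 j
    · rw [hr]
      fin_cases j
      · exact hz2
      · exact hz3

/-- **Rationality of bidouble covers.** -/
theorem AbCover.rational_two {a : Fin 2 → Fin N → ℕ} {y : Fin 2 → L} (h : AbCover 2 c a x y)
    (hc : GenPos c) (hz : ∀ j, 2 ∣ ∑ i, a j i) (hB : (branch 2 a).card ≤ 2 * n) :
    IsRational k L n := by
  obtain ⟨r, hr, hr2⟩ := blocks_two le_rfl (label 2 a) (branch 2 a).card (branch 2 a) rfl
    (fun i hi h0 => (label_eq_zero_iff i).1 h0 hi) (sum_branch hz)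
  refine h.rational_of_blocks hc (by norm_num) hz hr ?_
  omega

/-- elementary abelian covers with few branch hyperplanes -/
theorem AbCover.rational_pow (h : AbCover 2 c a x y) (hs : 2 ≤ s)
    (hc : GenPos c) (hz : ∀ j, 2 ∣ ∑ i, a j i) (hB : (branch 2 a).card + 2 ^ s ≤ 2 * n + 3) :
    IsRational k L n := by
  obtain ⟨r, hr, hr2⟩ := blocks_two hs (label 2 a) (branch 2 a).card (branch 2 a) rfl
    (fun i hi h0 => (label_eq_zero_iff i).1 h0 hi) (sum_branch hz)
  refine h.rational_of_blocks hc (by norm_num) hz hr ?_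
  omega

/-- **Abelian covers of projective spaces of large dimension.** -/
theorem AbCover.rational_davenport (h : AbCover m c a x y) (hc : GenPos c) (hm : 1 ≤ m)
    (hz : ∀ j, m ∣ ∑ i, a j i) {D : ℕ} (hD1 : 1 ≤ D)
    (hD : ∀ S : Finset (Fin N), D ≤ S.card → ∃ T ⊆ S, T.Nonempty ∧ ∑ i ∈ T, label m a i = 0)
    (hB : ((branch m a).card - n - 1) * (D - 1) ≤ n) : IsRational k L n := by
  classical
  rcases (branch m a).eq_empty_or_nonempty with h0 | h0
  · refine h.rational_of_blocks hc hm hz (r := 0) ?_ (by rw [h0]; simp)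
    rw [h0]
    exact ZBlocks.nil
  · obtain ⟨r, h1, h2, h3⟩ := ZBlocks.davenport hD hD1 (branch m a).card (branch m a) rfl h0
      (sum_branch hz)
    refine h.rational_of_blocks hc hm hz h1 ?_
    by_contra hcon
    push Not at hcon
    obtain ⟨D, rfl⟩ : ∃ D', D = D' + 1 := ⟨D - 1, by omega⟩
    rw [Nat.add_sub_cancel] at hB
    generalize (branch m a).card = b at *
    obtain ⟨l, rfl⟩ : ∃ l, b = n + 1 + l := ⟨b - n - 1, by omega⟩
    have h4 : n + 1 + l - n - 1 = l := by omega
    rw [h4] at hB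
    have h5 : r ≤ l := by omega
    have h6 : (D + 1) * r ≤ (D + 1) * l := Nat.mul_le_mul_left _ h5
    have h7 : (D + 1) * l = l * D + l := by ring
    omega

/-- **Bidouble covers.** -/
theorem AbCover.tfae {a : Fin 2 → Fin N → ℕ} {y : Fin 2 → L} (h : AbCover 2 c a x y) (hn : 1 ≤ n)
    (hc : GenPos c) (hz : ∀ j, 2 ∣ ∑ i, a j i) :
    [IsUnirational k L n, IsUniruled k L n, ¬ Psef k L n (fun _ => False),
      ¬ KodGe k L n (fun _ => False) 0, (branch 2 a).card ≤ 2 * n + 1].TFAE := by
  have := h.ess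
  obtain ⟨h23, h34, -⟩ := negative_chain (h.trdeg (by norm_num))
  tfae_have 1 → 2 := uniruled_of_unirational hn
  tfae_have 2 → 3 := h23
  tfae_have 3 → 4 := h34
  tfae_have 4 → 5 := by
    intro h4
    by_contra h5
    exact h4 (h.kod hc hz (by omega))
  tfae_have 5 → 1 := by
    intro h5
    rcases Nat.lt_or_ge (2 * n) (branch 2 a).card with h6 | h6
    · exact h.unirational_odd hc hz (by omega) hn
    · obtain ⟨e⟩ := h.rational_two hc hz h6
      exact ⟨e⟩
  tfae_finish

end Pool.Agent.T9h38.Ab
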